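import Pool.Agent.H398.Rep
import Mathlib.Data.Fintype.EquivFin
import Mathlib.Data.Finite.Prod
import Mathlib.Data.Finite.Sigma

/-!
# From labelled strict orderings to embeddings into `Reg e`
-/

set_option autoImplicit false
set_option linter.unusedSectionVars false

universe u v w

namespace Pool.Agent.H398

variable {K : Type u} [Ortholattice K]

open Ortholattice

/-- The strict ordering underlying a labelled strict ordering. -/
def IsRep.ord {S : Set K} {E : Type v} {lt : E → E → Prop} {I : E → E → Set K}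
    (h : IsRep S lt I) : StrictOrdering E where
  rel := {p | lt p.1 p.2}
  irrefl := h.irrefl
  trans x y z := h.trans x y z

/-- Refining a pair as long as a property fails. -/
theorem refine_chain {E : Type v} [Finite E] {lt : E → E → Prop} (irrefl : ∀ s, ¬ lt s s)
    (trans : ∀ s r t, lt s r → lt r t → lt s t) {P Q : E → E → Prop}
    (h : ∀ s t, lt s t → P s t → Q s t ∨ ∃ r, lt s r ∧ lt r t ∧ P s r ∧ P r t) (n : ℕ) :
    ∀ s t, {r | lt s r ∧ lt r t}.ncard ≤ n → lt s t → P s t →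
      Relation.TransGen (fun s t => lt s t ∧ Q s t) s t := by
  induction n with
  | zero =>
    intro s t hn hst hP
    have h1 : {r | lt s r ∧ lt r t} = ∅ :=
      (Set.ncard_eq_zero (Set.toFinite _)).1 (Nat.le_zero.1 hn)
    rcases h s t hst hP with h2 | ⟨r, h2, h3, _, _⟩
    · exact Relation.TransGen.single ⟨hst, h2⟩
    · have h4 : r ∈ {r | lt s r ∧ lt r t} := ⟨h2, h3⟩
      rw [h1] at h4
      exact absurd h4 (Set.notMem_empty _)
  | succ n ih =>
    intro s t hn hst hP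
    rcases h s t hst hP with h2 | ⟨r, h2, h3, h4, h5⟩
    · exact Relation.TransGen.single ⟨hst, h2⟩
    · have c1 : {w | lt s w ∧ lt w r} ⊂ {w | lt s w ∧ lt w t} := by
        refine ⟨fun w hw => ⟨hw.1, trans _ _ _ hw.2 h3⟩, fun h6 => ?_⟩
        exact irrefl r (h6 (show r ∈ _ from ⟨h2, h3⟩)).2
      have c2 : {w | lt r w ∧ lt w t} ⊂ {w | lt s w ∧ lt w t} := by
        refine ⟨fun w hw => ⟨trans _ _ _ h2 hw.1, hw.2⟩, fun h6 => ?_⟩
        exact irrefl r (h6 (show r ∈ _ from ⟨h2, h3⟩)).1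
      have d1 := Set.ncard_lt_ncard c1 (Set.toFinite _)
      have d2 := Set.ncard_lt_ncard c2 (Set.toFinite _)
      exact (ih s r (by omega) h2 h4).trans (ih r t (by omega) h3 h5)

section Hom

variable {E : Type v} [Finite E] {lt : E → E → Prop} {I : E → E → Set K}

/-- The pairs whose label contains `k`. -/
def pairs (lt : E → E → Prop) (I : E → E → Set K) (k : K) : Set (E × E) :=
  {p | lt p.1 p.2 ∧ k ∈ I p.1 p.2}

theorem pairs_sup (h : IsRep Set.univ lt I) (k l : K) :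
    pairs lt I (k ⊔ l) = cl (pairs lt I k ∪ pairs lt I l) := by
  apply Set.Subset.antisymm
  · rintro ⟨s, t⟩ ⟨h1, h2⟩
    have h3 := refine_chain h.irrefl h.trans (P := fun s t => k ⊔ l ∈ I s t)
      (Q := fun s t => k ∈ I s t ∨ l ∈ I s t) (fun s t h4 h5 => by
        rcases h.jn s t k l h4 h5 with h6 | h6 | h6
        · exact Or.inl (Or.inl h6)
        · exact Or.inl (Or.inr h6)
        · exact Or.inr h6) _ s t le_rfl h1 h2
    refine tlift id ?_ h3
    rintro a b ⟨h4, h5 | h5⟩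
    · exact Or.inl ⟨h4, h5⟩
    · exact Or.inr ⟨h4, h5⟩
  · apply cl_sub
    · apply Set.union_subset
      · rintro ⟨s, t⟩ ⟨h1, h2⟩
        exact ⟨h1, h.up _ _ _ _ h1 (leS_of_le le_sup_left) h2⟩
      · rintro ⟨s, t⟩ ⟨h1, h2⟩
        exact ⟨h1, h.up _ _ _ _ h1 (leS_of_le le_sup_right) h2⟩
    · rintro x y z ⟨h1, h2⟩ ⟨h3, h4⟩
      exact ⟨h.trans _ _ _ h1 h3, h.tri _ _ _ _ h1 h3 h2 h4⟩

theorem pairs_perp (h : IsRep Set.univ lt I) (k : K) :
    pairs lt I (perp k) = cl (h.ord.rel \ pairs lt I k) := by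
  apply Set.Subset.antisymm
  · rintro ⟨s, t⟩ ⟨h1, h2⟩
    have h3 := refine_chain h.irrefl h.trans (P := fun s t => perp k ∈ I s t)
      (Q := fun s t => k ∉ I s t) (fun s t h4 h5 => by
        by_cases h6 : k ∈ I s t
        · exact Or.inr (h.orr s t (perp k) h4 h5 (by rwa [perp_perp]))
        · exact Or.inl h6) _ s t le_rfl h1 h2
    refine tlift id ?_ h3
    rintro a b ⟨h4, h5⟩
    exact ⟨h4, fun h6 => h5 h6.2⟩
  · apply cl_sub
    · rintro ⟨s, t⟩ ⟨h1, h2⟩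
      refine ⟨h1, ?_⟩
      rcases h.cm s t k h1 with h3 | h3
      · exact absurd ⟨h1, h3⟩ h2
      · exact h3
    · rintro x y z ⟨h1, h2⟩ ⟨h3, h4⟩
      exact ⟨h.trans _ _ _ h1 h3, h.tri _ _ _ _ h1 h3 h2 h4⟩

theorem pairs_reg (h : IsRep Set.univ lt I) (k : K) :
    pairs lt I k = cl (interior h.ord (pairs lt I k)) := by
  unfold interior
  rw [← pairs_perp h, ← pairs_perp h, perp_perp]

theorem rep_embed (h : IsRep Set.univ lt I)
    (hs : ∀ k l : K, ¬ k ≤ l → ∃ s t, lt s t ∧ k ∈ I s t ∧ l ∉ I s t) :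
    ∃ f : K → Reg h.ord, Function.Injective f ∧ (∀ x y, f (x ⊔ y) = f x ⊔ f y) ∧
      (∀ x y, f (x ⊓ y) = f x ⊓ f y) ∧ (∀ x, f (perp x) = perp (f x)) ∧
      f ⊥ = ⊥ ∧ f ⊤ = ⊤ := by
  let f : K → Reg h.ord := fun k => ⟨pairs lt I k, pairs_reg h k⟩
  have h1 : ∀ x y, f (x ⊔ y) = f x ⊔ f y := fun x y => Subtype.ext (pairs_sup h x y)
  have h2 : ∀ x, f (perp x) = perp (f x) := fun x => Subtype.ext (pairs_perp h x)
  have h3 : ∀ x y, f (x ⊓ y) = f x ⊓ f y := by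
    intro x y
    rw [inf_eq_perp x y, h2, h1, h2, h2, ← inf_eq_perp]
  have h4 : f ⊥ = ⊥ := by
    rw [← inf_perp (⊥ : K), h3, h2, inf_perp]
  have h5 : f ⊤ = ⊤ := by
    rw [← perp_bot, h2, h4, perp_bot]
  refine ⟨f, ?_, h1, h3, h2, h4, h5⟩
  have key : ∀ x y, f x = f y → x ≤ y := by
    intro x y hxy
    by_contra h6
    obtain ⟨s, t, h7, h8, h9⟩ := hs x y h6
    have h10 : (s, t) ∈ (f x).1 := ⟨h7, h8⟩
    rw [hxy] at h10
    exact h9 h10.2
  intro x y hxy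
  exact le_antisymm (key x y hxy) (key y x hxy.symm)

end Hom

theorem rep_transport {S : Set K} {E : Type v} {E' : Type w} (φ : E ≃ E') {lt : E → E → Prop}
    {I : E → E → Set K} (h : IsRep S lt I) :
    IsRep S (fun a b => lt (φ.symm a) (φ.symm b)) (fun a b => I (φ.symm a) (φ.symm b)) where
  irrefl s := h.irrefl _
  trans s r t := h.trans _ _ _
  up s t := h.up _ _
  cm s t := h.cm _ _
  tri s r t := h.tri _ _ _
  jn s t k l h1 h2 := by
    rcases h.jn _ _ _ _ h1 h2 with h3 | h3 | ⟨r, h3, h4, h5, h6⟩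
    · exact Or.inl h3
    · exact Or.inr (Or.inl h3)
    · refine Or.inr (Or.inr ⟨φ r, ?_⟩)
      rw [φ.symm_apply_apply]
      exact ⟨h3, h4, h5, h6⟩
  orr s t k h1 h2 h3 := by
    obtain ⟨r, h4, h5, h6, h7⟩ := h.orr _ _ _ h1 h2 h3
    refine ⟨φ r, ?_⟩
    rw [φ.symm_apply_apply]
    exact ⟨h4, h5, h6, h7⟩

/-- A finite ortholattice in which every join-irreducible element has a rank embeds into `Reg e`
for a strict ordering `e` on a finite set. -/
theorem embed_of_LB [Finite K] (hLB : LB K) :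
    ∃ (n : ℕ) (e : StrictOrdering (Fin n)) (f : K → Reg e), Function.Injective f ∧
      (∀ x y, f (x ⊔ y) = f x ⊔ f y) ∧ (∀ x y, f (x ⊓ y) = f x ⊓ f y) ∧
      (∀ x, f (perp x) = perp (f x)) ∧ f ⊥ = ⊥ ∧ f ⊤ = ⊤ := by
  have hG : ∀ g : {g : K × K // ¬ g.1 ≤ g.2}, RF (Set.univ : Set K) g.1.1 g.1.2 :=
    fun g => rf_univ hLB g.2
  choose E hfin lt I z y h1 h2 h3 h4 using hG
  have h5 := rep_sigma h1
  obtain ⟨n, ⟨φ⟩⟩ := Finite.exists_equiv_fin (Σ g, E g)
  have h6 := rep_transport φ h5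
  refine ⟨n, h6.ord, ?_⟩
  apply rep_embed h6
  intro k l hkl
  refine ⟨φ ⟨⟨(k, l), hkl⟩, z _⟩, φ ⟨⟨(k, l), hkl⟩, y _⟩, ?_⟩
  rw [φ.symm_apply_apply, φ.symm_apply_apply]
  refine ⟨sLt_iff.2 (h2 _), sI_iff.2 (h3 ⟨(k, l), hkl⟩), fun h7 => ?_⟩
  exact h4 ⟨(k, l), hkl⟩ _ (h2 _) (sI_iff.1 h7)

end Pool.Agent.H398
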