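import Pool.Agent.H398.Kappa
import Mathlib.Order.Hom.Lattice
import Mathlib.Order.Sublattice
import Mathlib.Data.Finite.Prod
import Mathlib.Data.Set.Finite.Basic
import Mathlib.Data.Fintype.Powerset

/-!
# Bounded homomorphic images of free lattices
-/

set_option autoImplicit false
set_option linter.unusedSectionVars false

universe u v

namespace Pool.Agent.H398

/-- `F` is a free lattice on the family `ι`: every family of elements of a lattice `L` indexed in
the same way is the image of `ι` under exactly one lattice homomorphism `F → L`. -/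
def IsFreeLattice {X : Type} {F : Type v} [Lattice F] (ι : X → F) : Prop :=
  ∀ (L : Type v) [Lattice L] (f : X → L), ∃! g : LatticeHom F L, ∀ x, g (ι x) = f x

/-- `K` is a bounded homomorphic image of a free lattice: there is a surjective lattice homomorphism
`h : F → K` from a free lattice on finitely many generators such that every fibre of `h` has a
least and a greatest element. -/
def IsBoundedImage (K : Type u) [Lattice K] : Prop :=
  ∃ (X : Type) (_ : Finite X) (F : Type v) (_ : Lattice F) (ι : X → F) (h : LatticeHom F K),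
    IsFreeLattice ι ∧ Function.Surjective h ∧
      ∀ a : K, (∃ l, IsLeast {x | h x = a} l) ∧ ∃ g, IsGreatest {x | h x = a} g

section Free

variable {X : Type} {F : Type v} [Lattice F] {ι : X → F}

theorem exists_section (hF : IsFreeLattice ι) {L : Type v} [Lattice L] (π : LatticeHom L F)
    (f : X → L) (hf : ∀ x, π (f x) = ι x) : ∃ g : LatticeHom F L, (∀ x, g (ι x) = f x) ∧
      ∀ u, π (g u) = u := by
  obtain ⟨g, hg, _⟩ := hF L f
  obtain ⟨k, hk, huniq⟩ := hF F ι
  have h1 := huniq (π.comp g) (by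
    intro x
    show π (g (ι x)) = ι x
    rw [hg, hf])
  have h2 := huniq (LatticeHom.id F) (fun x => rfl)
  refine ⟨g, hg, fun u => ?_⟩
  have h3 : π.comp g = LatticeHom.id F := h1.trans h2.symm
  exact congrArg (fun φ : LatticeHom F F => φ u) h3

/-- Doubling the elements above `ℓ` outside an upper set `U`. -/
structure Dbl (ℓ : F) (U : F → Prop) : Type v where
  /-- The underlying element. -/
  val : F
  /-- Whether this is the upper copy. -/
  up : Prop
  h1 : up → ℓ ≤ val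
  h2 : ℓ ≤ val → U val → up

theorem Dbl.ext' {ℓ : F} {U : F → Prop} {x y : Dbl ℓ U} (h : x.val = y.val) (h2 : x.up ↔ y.up) :
    x = y := by
  obtain ⟨a, P, _, _⟩ := x
  obtain ⟨b, Q, _, _⟩ := y
  have h3 : P = Q := propext h2
  subst h3
  have h4 : a = b := h
  subst h4
  rfl

/-- The doubled lattice. -/
@[instance_reducible]
def dblLattice (ℓ : F) (U : F → Prop) (hU : ∀ a b, a ≤ b → U a → U b) : Lattice (Dbl ℓ U) where
  le x y := x.val ≤ y.val ∧ (x.up → y.up)
  le_refl x := ⟨le_rfl, id⟩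
  le_trans x y z h1 h2 := ⟨h1.1.trans h2.1, fun h => h2.2 (h1.2 h)⟩
  le_antisymm x y h1 h2 := Dbl.ext' (le_antisymm h1.1 h2.1) ⟨h1.2, h2.2⟩
  sup x y := ⟨x.val ⊔ y.val, x.up ∨ y.up ∨ (ℓ ≤ x.val ⊔ y.val ∧ U (x.val ⊔ y.val)), by
    rintro (h | h | h)
    · exact (x.h1 h).trans le_sup_left
    · exact (y.h1 h).trans le_sup_right
    · exact h.1, fun h1 h2 => Or.inr (Or.inr ⟨h1, h2⟩)⟩
  inf x y := ⟨x.val ⊓ y.val, x.up ∧ y.up, fun h => le_inf (x.h1 h.1) (y.h1 h.2),
    fun h1 h2 => ⟨x.h2 (h1.trans inf_le_left) (hU _ _ inf_le_left h2),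
      y.h2 (h1.trans inf_le_right) (hU _ _ inf_le_right h2)⟩⟩
  le_sup_left x y := ⟨le_sup_left, Or.inl⟩
  le_sup_right x y := ⟨le_sup_right, fun h => Or.inr (Or.inl h)⟩
  sup_le x y z h1 h2 := ⟨sup_le h1.1 h2.1, by
    rintro (h | h | h)
    · exact h1.2 h
    · exact h2.2 h
    · exact z.h2 (h.1.trans (sup_le h1.1 h2.1)) (hU _ _ (sup_le h1.1 h2.1) h.2)⟩
  inf_le_left x y := ⟨inf_le_left, And.left⟩
  inf_le_right x y := ⟨inf_le_right, And.right⟩
  le_inf x y z h1 h2 := ⟨le_inf h1.1 h2.1, fun h => ⟨h1.2 h, h2.2 h⟩⟩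

/-- A homomorphic section of the projection of the doubled lattice, with its components. -/
theorem exists_dbl (hF : IsFreeLattice ι) (ℓ : F) (U : F → Prop)
    (hU : ∀ a b, a ≤ b → U a → U b) (P : X → Prop) (hP1 : ∀ x, P x → ℓ ≤ ι x)
    (hP2 : ∀ x, ℓ ≤ ι x → U (ι x) → P x) :
    ∃ Q : F → Prop, (∀ x, Q (ι x) ↔ P x) ∧ (∀ u, Q u → ℓ ≤ u) ∧ (∀ u, ℓ ≤ u → U u → Q u) ∧
      (∀ u w, Q (u ⊔ w) ↔ Q u ∨ Q w ∨ (ℓ ≤ u ⊔ w ∧ U (u ⊔ w))) ∧
      (∀ u w, Q (u ⊓ w) ↔ Q u ∧ Q w) := by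
  let _ := dblLattice ℓ U hU
  let π : LatticeHom (Dbl ℓ U) F :=
    { toFun := Dbl.val, map_sup' := fun _ _ => rfl, map_inf' := fun _ _ => rfl }
  obtain ⟨g, hg1, hg2⟩ := exists_section hF π (fun x => ⟨ι x, P x, hP1 x, hP2 x⟩) (fun x => rfl)
  have hv : ∀ u, (g u).val = u := hg2
  refine ⟨fun u => (g u).up, ?_, ?_, ?_, ?_, ?_⟩
  · intro x
    show (g (ι x)).up ↔ P x
    rw [hg1]
  · intro u h
    have h2 := (g u).h1 h
    rwa [hv] at h2
  · intro u h1 h2
    apply (g u).h2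
    · rwa [hv]
    · rwa [hv]
  · intro u w
    show (g (u ⊔ w)).up ↔ _
    rw [map_sup]
    show ((g u).up ∨ (g w).up ∨ (ℓ ≤ (g u).val ⊔ (g w).val ∧ U ((g u).val ⊔ (g w).val))) ↔ _
    rw [hv, hv]
  · intro u w
    show (g (u ⊓ w)).up ↔ _
    rw [map_inf]
    rfl

/-- Generators are join-prime. -/
theorem gen_prime (hF : IsFreeLattice ι) {x : X} {a b : F} (h : ι x ≤ a ⊔ b) :
    ι x ≤ a ∨ ι x ≤ b := by
  obtain ⟨Q, h1, h2, h3, h4, h5⟩ := exists_dbl hF (ι x) (fun _ => False)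
    (fun _ _ _ h => h) (fun y => ι x ≤ ι y) (fun y h => h) (fun y _ h => h.elim)
  have h6 : Q (ι x) := (h1 x).2 le_rfl
  have h7 : Q (a ⊔ b) := by
    have h8 : ι x ⊓ (a ⊔ b) = ι x := inf_eq_left.2 h
    rw [← h8] at h6
    exact ((h5 _ _).1 h6).2
  rcases (h4 _ _).1 h7 with h8 | h8 | h8
  · exact Or.inl (h2 _ h8)
  · exact Or.inr (h2 _ h8)
  · exact h8.2.elim

/-- The condition of Whitman. -/
theorem whitman (hF : IsFreeLattice ι) {a b c d : F} (h : a ⊓ b ≤ c ⊔ d) :
    a ≤ c ⊔ d ∨ b ≤ c ⊔ d ∨ a ⊓ b ≤ c ∨ a ⊓ b ≤ d := by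
  by_contra hn
  rw [not_or, not_or, not_or] at hn
  obtain ⟨n1, n2, n3, n4⟩ := hn
  obtain ⟨Q, h1, h2, h3, h4, h5⟩ := exists_dbl hF (a ⊓ b) (fun u => ¬ u ≤ c ⊔ d)
    (fun u w hu h1 h2 => h1 (hu.trans h2)) (fun y => a ⊓ b ≤ ι y) (fun y h => h)
    (fun y h _ => h)
  have h6 : Q (a ⊓ b) := (h5 _ _).2 ⟨h3 _ inf_le_left n1, h3 _ inf_le_right n2⟩
  have h7 : Q (c ⊔ d) := by
    have h8 : (a ⊓ b) ⊓ (c ⊔ d) = a ⊓ b := inf_eq_left.2 h
    rw [← h8] at h6
    exact ((h5 _ _).1 h6).2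
  rcases (h4 _ _).1 h7 with h8 | h8 | h8
  · exact n3 (h2 _ h8)
  · exact n4 (h2 _ h8)
  · exact h8.2 le_rfl

/-- Elements of `F` by the complexity of their construction from the generators. -/
def HH (ι : X → F) : ℕ → Set F
  | 0 => ∅
  | n + 1 => {w | w ∈ HH ι n ∨ (∃ x, w = ι x) ∨ ∃ u ∈ HH ι n, ∃ v ∈ HH ι n, w = u ⊔ v ∨ w = u ⊓ v}

theorem HH_mono {m n : ℕ} (h : m ≤ n) : HH ι m ⊆ HH ι n := by
  induction h with
  | refl => exact Set.Subset.refl _
  | step _ ih => exact ih.trans (fun w hw => Or.inl hw)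

theorem exists_HH (hF : IsFreeLattice ι) (u : F) : ∃ n, u ∈ HH ι n := by
  let S : Sublattice F :=
    { carrier := {u | ∃ n, u ∈ HH ι n}
      supClosed' := by
        rintro a ⟨m, hm⟩ b ⟨n, hn⟩
        exact ⟨max m n + 1, Or.inr (Or.inr ⟨a, HH_mono (le_max_left _ _) hm, b,
          HH_mono (le_max_right _ _) hn, Or.inl rfl⟩)⟩
      infClosed' := by
        rintro a ⟨m, hm⟩ b ⟨n, hn⟩
        exact ⟨max m n + 1, Or.inr (Or.inr ⟨a, HH_mono (le_max_left _ _) hm, b,
          HH_mono (le_max_right _ _) hn, Or.inr rfl⟩)⟩ }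
  obtain ⟨g, _, hg⟩ := exists_section hF (L := S) (Sublattice.subtype S)
    (fun x => ⟨ι x, 1, Or.inr (Or.inl ⟨x, rfl⟩)⟩) (fun x => rfl)
  have h1 := (g u).2
  have h2 : ((g u : S) : F) = u := hg u
  rw [h2] at h1
  exact h1

/-- Finite joins of elements of `T`. -/
inductive JO (T : Set F) : F → Prop
  | base (t : F) : t ∈ T → JO T t
  | sup (a b : F) : JO T a → JO T b → JO T (a ⊔ b)

theorem gen_prime_JO (hF : IsFreeLattice ι) {T : Set F} {j : F} (hj : JO T j) {x : X}
    (h : ι x ≤ j) : ∃ t ∈ T, ι x ≤ t := by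
  induction hj with
  | base t ht => exact ⟨t, ht, h⟩
  | sup a b _ _ iha ihb =>
    rcases gen_prime hF h with h1 | h1
    · exact iha h1
    · exact ihb h1

theorem whitman_JO (hF : IsFreeLattice ι) {T : Set F} {j : F} (hj : JO T j) {a b : F}
    (h : a ⊓ b ≤ j) : a ≤ j ∨ b ≤ j ∨ ∃ t ∈ T, a ⊓ b ≤ t := by
  induction hj with
  | base t ht => exact Or.inr (Or.inr ⟨t, ht, h⟩)
  | sup c d _ _ ihc ihd =>
    rcases whitman hF h with h1 | h1 | h1 | h1
    · exact Or.inl h1
    · exact Or.inr (Or.inl h1)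
    · rcases ihc h1 with h2 | h2 | h2
      · exact Or.inl (h2.trans le_sup_left)
      · exact Or.inr (Or.inl (h2.trans le_sup_left))
      · exact Or.inr (Or.inr h2)
    · rcases ihd h1 with h2 | h2 | h2
      · exact Or.inl (h2.trans le_sup_right)
      · exact Or.inr (Or.inl (h2.trans le_sup_right))
      · exact Or.inr (Or.inr h2)

theorem refine_HH (hF : IsFreeLattice ι) {T : Set F} {j : F} (hj : JO T j) (n : ℕ) :
    ∀ w ∈ HH ι n, w ≤ j → ∀ z, (∀ b ∈ HH ι n, (∃ t ∈ T, b ≤ t) → b ≤ z) → w ≤ z := by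
  induction n with
  | zero =>
    intro w hw
    exact absurd hw (Set.notMem_empty _)
  | succ n ih =>
    intro w hw hwj z hz
    have hz' : ∀ b ∈ HH ι n, (∃ t ∈ T, b ≤ t) → b ≤ z := fun b hb => hz b (Or.inl hb)
    have hw' := hw
    rcases hw' with h1 | ⟨x, h1⟩ | ⟨a, ha, b, hb, h1 | h1⟩
    · exact ih w h1 hwj z hz'
    · subst h1
      exact hz _ hw (gen_prime_JO hF hj hwj)
    · subst h1
      exact sup_le (ih a ha (le_sup_left.trans hwj) z hz') (ih b hb (le_sup_right.trans hwj) z hz')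
    · subst h1
      rcases whitman_JO hF hj hwj with h2 | h2 | h2
      · exact inf_le_left.trans (ih a ha h2 z hz')
      · exact inf_le_right.trans (ih b hb h2 z hz')
      · exact hz _ hw h2

theorem refine_top (hF : IsFreeLattice ι) {T : Set F} {j : F} (hj : JO T j) {n : ℕ} {w : F}
    (hw : w ∈ HH ι (n + 1)) (hwj : w ≤ j) (hT : ∀ t ∈ T, ¬ w ≤ t) {z : F}
    (hz : ∀ b ∈ HH ι n, (∃ t ∈ T, b ≤ t) → b ≤ z) : w ≤ z := by
  rcases hw with h1 | ⟨x, h1⟩ | ⟨a, ha, b, hb, h1 | h1⟩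
  · exact refine_HH hF hj n w h1 hwj z hz
  · subst h1
    obtain ⟨t, ht, h2⟩ := gen_prime_JO hF hj hwj
    exact absurd h2 (hT t ht)
  · subst h1
    exact sup_le (refine_HH hF hj n a ha (le_sup_left.trans hwj) z hz)
      (refine_HH hF hj n b hb (le_sup_right.trans hwj) z hz)
  · subst h1
    rcases whitman_JO hF hj hwj with h2 | h2 | ⟨t, ht, h2⟩
    · exact inf_le_left.trans (refine_HH hF hj n a ha h2 z hz)
    · exact inf_le_right.trans (refine_HH hF hj n b hb h2 z hz)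
    · exact absurd h2 (hT t ht)

end Free

section Main

variable {K : Type u} [Lattice K] [Finite K] {X : Type} {F : Type v} [Lattice F] {ι : X → F}

theorem exists_JO (β : K → F) (D : Set K) (hD : D.Nonempty) :
    ∃ j, JO (β '' D) j ∧ ∀ d ∈ D, β d ≤ j := by
  have h := Set.Finite.induction_on_subset (motive := fun s _ => s.Nonempty →
    ∃ j, JO (β '' D) j ∧ ∀ d ∈ s, β d ≤ j) D (Set.toFinite D)
    (fun h => absurd h Set.not_nonempty_empty) ?_
  · exact h hD
  · intro a s ha hs _ ih _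
    by_cases hne : s.Nonempty
    · obtain ⟨j, hj1, hj2⟩ := ih hne
      refine ⟨j ⊔ β a, JO.sup _ _ hj1 (JO.base _ ⟨a, ha, rfl⟩), ?_⟩
      rintro d (h1 | h1)
      · subst h1
        exact le_sup_right
      · exact (hj2 d h1).trans le_sup_left
    · rw [Set.not_nonempty_iff_eq_empty] at hne
      subst hne
      refine ⟨β a, JO.base _ ⟨a, ha, rfl⟩, ?_⟩
      rintro d (h1 | h1)
      · subst h1
        exact le_rfl
      · exact absurd h1 (Set.notMem_empty _)

theorem rank_of_HH (hF : IsFreeLattice ι) (h : LatticeHom F K) (β α : K → F)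
    (hβ : ∀ a u, β a ≤ u ↔ a ≤ h u) (hα : ∀ a u, u ≤ α a ↔ h u ≤ a) (hβh : ∀ a, h (β a) = a)
    (n : ℕ) : ∀ p : K, IsJI p → β p ∈ HH ι n → p ∈ SS K n := by
  induction n with
  | zero =>
    intro p _ h1
    exact absurd h1 (Set.notMem_empty _)
  | succ n ih =>
    intro p hp hpn
    refine ⟨hp, ?_⟩
    intro x y hxy hx hy u hu
    -- a minimal lower set below `x` and `y` whose join is above `p`
    obtain ⟨D, hD⟩ := (Set.toFinite {D : Set K | (∀ a b, a ≤ b → b ∈ D → a ∈ D) ∧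
      (∀ d ∈ D, d ≤ x ∨ d ≤ y) ∧ ∀ z, (∀ d ∈ D, d ≤ z) → p ≤ z}).exists_minimal
      ⟨{d | d ≤ x ∨ d ≤ y}, by
        refine ⟨?_, fun d hd => hd, ?_⟩
        · rintro a b hab (h1 | h1)
          · exact Or.inl (hab.trans h1)
          · exact Or.inr (hab.trans h1)
        · intro z hz
          exact hxy.trans (sup_le (hz x (Or.inl le_rfl)) (hz y (Or.inr le_rfl)))⟩
    obtain ⟨⟨hD1, hD2, hD3⟩, hDmin⟩ := hD
    have hDne : D.Nonempty := by
      rw [Set.nonempty_iff_ne_empty]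
      intro h1
      obtain ⟨q, hq⟩ := hp
      have h2 := hD3 q (fun d hd => by rw [h1] at hd; exact absurd hd (Set.notMem_empty _))
      exact absurd hq.1 (not_lt_of_ge h2)
    obtain ⟨j, hj1, hj2⟩ := exists_JO β D hDne
    have hpj : β p ≤ j := by
      rw [hβ]
      apply hD3
      intro d hd
      exact (hβ d j).1 (hj2 d hd)
    have hpT : ∀ t ∈ β '' D, ¬ β p ≤ t := by
      rintro _ ⟨d, hd, rfl⟩ h1
      rw [hβ, hβh] at h1
      rcases hD2 d hd with h2 | h2
      · exact hx (h1.trans h2)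
      · exact hy (h1.trans h2)
    -- the lower set generated by the images of the refined cover
    have hD' : {z | ∃ b ∈ HH ι n, (∃ t ∈ β '' D, b ≤ t) ∧ z ≤ h b} ⊆ D := by
      rintro z ⟨b, _, ⟨_, ⟨d, hd, rfl⟩, h1⟩, h2⟩
      apply hD1 z d _ hd
      calc z ≤ h b := h2
        _ ≤ h (β d) := OrderHomClass.mono h h1
        _ = d := hβh d
    have hDD := hDmin (y := {z | ∃ b ∈ HH ι n, (∃ t ∈ β '' D, b ≤ t) ∧ z ≤ h b}) (by
      refine ⟨?_, fun d hd => hD2 d (hD' hd), ?_⟩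
      · rintro a b hab ⟨c, hc, h1, h2⟩
        exact ⟨c, hc, h1, hab.trans h2⟩
      · intro z hz
        have h1 : β p ≤ α z := by
          refine refine_top hF hj1 hpn hpj hpT ?_
          intro b hb h2
          rw [hα]
          exact hz _ ⟨b, hb, h2, le_rfl⟩
        rw [hα, hβh] at h1
        exact h1) hD'
    apply hD3
    intro d hd
    by_contra hdu
    obtain ⟨s, hds, hs⟩ := (Set.toFinite D).exists_le_maximal hd
    have hsu : ¬ s ≤ u := fun h1 => hdu (hds.trans h1)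
    have hmax : ∀ c ∈ D, s ≤ c → c = s := fun c hc h1 => le_antisymm (hs.le_of_ge hc h1) h1
    obtain ⟨b, hb, ⟨t, ht, hbt⟩, hsb⟩ := hDD hs.prop
    have hbs : h b = s := hmax _ (hD' ⟨b, hb, ⟨t, ht, hbt⟩, le_rfl⟩) hsb
    obtain ⟨d', hd', rfl⟩ := ht
    have hsd : s ≤ d' := by
      rw [← hbs, ← hβh d']
      exact OrderHomClass.mono h hbt
    have hd's : d' = s := hmax _ hd' hsd
    rw [hd's] at hbt
    have hbb : b = β s := le_antisymm hbt ((hβ s b).2 hbs.ge)
    have hsJI : IsJI s := by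
      by_contra hn
      have h1 := hDmin (y := D \ {s}) (by
        refine ⟨?_, fun d hd => hD2 d hd.1, ?_⟩
        · rintro a b hab ⟨hb1, hb2⟩
          refine ⟨hD1 a b hab hb1, fun h1 => ?_⟩
          have h2 : a = s := h1
          rw [h2] at hab
          exact hb2 (hmax b hb1 hab)
        · intro z hz
          apply hD3
          intro c hc
          by_cases hcs : c = s
          · rw [hcs]
            by_contra h2
            obtain ⟨q, hq1, hq2, hq3⟩ := exists_min h2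
            have h3 : q ≠ s := by
              intro h4
              rw [h4] at hq3
              exact hn ⟨_, hq3⟩
            exact hq2 (hz q ⟨hD1 q s hq1 hs.prop, h3⟩)
          · exact hz c ⟨hc, hcs⟩) Set.sdiff_subset
      exact (h1 hs.prop).2 rfl
    have hsn := ih s hsJI (by rw [← hbb]; exact hb)
    exact hsu (hu s hsn (hD2 s hs.prop))

theorem IsBoundedImage.lb (hK : IsBoundedImage.{u, v} K) : LB K := by
  obtain ⟨X, _, F, _, ι, h, hF, hsurj, hfib⟩ := hK
  choose β hβ using fun a => (hfib a).1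
  choose α hα using fun a => (hfib a).2
  have hβh : ∀ a, h (β a) = a := fun a => (hβ a).1
  have hαh : ∀ a, h (α a) = a := fun a => (hα a).1
  have hβ2 : ∀ a u, β a ≤ u ↔ a ≤ h u := by
    intro a u
    constructor
    · intro h1
      rw [← hβh a]
      exact OrderHomClass.mono h h1
    · intro h1
      have h2 : u ⊓ β a ∈ {x | h x = a} := by
        show h (u ⊓ β a) = a
        rw [map_inf, hβh]
        exact inf_eq_right.2 h1
      exact ((hβ a).2 h2).trans inf_le_left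
  have hα2 : ∀ a u, u ≤ α a ↔ h u ≤ a := by
    intro a u
    constructor
    · intro h1
      rw [← hαh a]
      exact OrderHomClass.mono h h1
    · intro h1
      have h2 : u ⊔ α a ∈ {x | h x = a} := by
        show h (u ⊔ α a) = a
        rw [map_sup, hαh]
        exact sup_eq_right.2 h1
      exact le_sup_left.trans ((hα a).2 h2)
  intro p hp
  obtain ⟨n, hn⟩ := exists_HH hF (β p)
  exact ⟨n, rank_of_HH hF h β α hβ2 hα2 hβh n p hp hn⟩

end Main

end Pool.Agent.H398
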