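import Pool.Agent.H398.OrthoBasic

/-!
# Join-irreducible elements of finite ortholattices, their ranks and their duals
-/

set_option autoImplicit false
set_option linter.unusedSectionVars false

universe u

namespace Pool.Agent.H398

section Lat

variable {K : Type u} [Lattice K]

/-- `q` is the greatest element strictly below `p`. -/
def LC (p q : K) : Prop := q < p ∧ ∀ x, x < p → x ≤ q

/-- `p` is completely join-irreducible. -/
def IsJI (p : K) : Prop := ∃ q, LC p q

/-- `p` lies below the join of the elements of `S` which lie below `x` or below `y`. -/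
def Ref (S : Set K) (p x y : K) : Prop := ∀ u, (∀ c ∈ S, c ≤ x ∨ c ≤ y → c ≤ u) → p ≤ u

/-- The elements of rank less than `n`. -/
def SS (K : Type u) [Lattice K] : ℕ → Set K
  | 0 => ∅
  | n + 1 => {p | IsJI p ∧ ∀ x y, p ≤ x ⊔ y → ¬ p ≤ x → ¬ p ≤ y → Ref (SS K n) p x y}

theorem Ref.mono {S T : Set K} (h : S ⊆ T) {p x y : K} (hr : Ref S p x y) : Ref T p x y :=
  fun u hu => hr u (fun c hc => hu c (h hc))

theorem SS_succ (n : ℕ) : SS K n ⊆ SS K (n + 1) := by
  induction n with
  | zero => exact Set.empty_subset _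
  | succ n ih =>
    rintro p ⟨h1, h2⟩
    exact ⟨h1, fun x y h3 h4 h5 => (h2 x y h3 h4 h5).mono ih⟩

theorem SS_mono {m n : ℕ} (h : m ≤ n) : SS K m ⊆ SS K n := by
  induction h with
  | refl => exact Set.Subset.refl _
  | step _ ih => exact ih.trans (SS_succ _)

theorem SS_isJI {n : ℕ} {p : K} (h : p ∈ SS K n) : IsJI p := by
  have h2 := SS_succ n h
  exact h2.1

theorem LC.unique {p q r : K} (h1 : LC p q) (h2 : LC p r) : q = r :=
  le_antisymm (h2.2 _ h1.1) (h1.2 _ h2.1)

theorem exists_min [Finite K] {x y : K} (h : ¬ x ≤ y) : ∃ q, q ≤ x ∧ ¬ q ≤ y ∧ LC q (q ⊓ y) := by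
  obtain ⟨q, hq⟩ := (Set.toFinite {z : K | z ≤ x ∧ ¬ z ≤ y}).exists_minimal ⟨x, le_rfl, h⟩
  refine ⟨q, hq.prop.1, hq.prop.2, ?_, ?_⟩
  · exact lt_of_le_not_ge inf_le_left (fun h2 => hq.prop.2 (h2.trans inf_le_right))
  · intro z hz
    refine le_inf hz.le ?_
    by_contra h2
    exact absurd hz (not_lt_of_ge (hq.le_of_le ⟨hz.le.trans hq.prop.1, h2⟩ hz.le))

/-- `m` is the greatest element above the lower cover of `p` which is not above `p`. -/
def Kap (p m : K) : Prop :=
  ∃ q, LC p q ∧ q ≤ m ∧ ¬ p ≤ m ∧ ∀ v, q ≤ v → ¬ p ≤ v → v ≤ m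

theorem Kap.unique {p m m' : K} (h : Kap p m) (h' : Kap p m') : m = m' := by
  obtain ⟨q, h1, h2, h3, h4⟩ := h
  obtain ⟨q', h1', h2', h3', h4'⟩ := h'
  have h5 := h1.unique h1'
  subst h5
  exact le_antisymm (h4' _ h2 h3) (h4 _ h2' h3')

theorem Kap.not_le {p m : K} (h : Kap p m) : ¬ p ≤ m := by
  obtain ⟨q, h1, h2, h3, h4⟩ := h
  exact h3

theorem Kap.lt_le {p m x : K} (h : Kap p m) (hx : x < p) : x ≤ m := by
  obtain ⟨q, h1, h2, h3, h4⟩ := h
  exact (h1.2 _ hx).trans h2

/-- An element above `m` and not below it lies above `p`. -/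
theorem Kap.le_of_lt {p m x : K} (h : Kap p m) (hx : m < x) : p ≤ x := by
  obtain ⟨q, h1, h2, h3, h4⟩ := h
  by_contra h5
  exact absurd hx (not_lt_of_ge (h4 _ (h2.trans hx.le) h5))

/-- The relation `x ≤ y` as far as it is seen by the elements of `S`. -/
def leS (S : Set K) (x y : K) : Prop := ∀ q ∈ S, q ≤ x → q ≤ y

theorem leS.mono {S T : Set K} (h : S ⊆ T) {x y : K} (h2 : leS T x y) : leS S x y :=
  fun q hq => h2 q (h hq)

theorem leS_of_le {S : Set K} {x y : K} (h : x ≤ y) : leS S x y := fun _ _ h2 => h2.trans h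

theorem leS.trans {S : Set K} {x y z : K} (h : leS S x y) (h2 : leS S y z) : leS S x z :=
  fun q hq h3 => h2 q hq (h q hq h3)

theorem coverA {n : ℕ} {p m k : K} (hp : p ∈ SS K (n + 1)) (hm : Kap p m)
    (h1 : ∀ c ∈ SS K n, c < p → c ≤ k) (h2 : ¬ p ≤ k) : k ≤ m := by
  obtain ⟨q, hq1, hq2, hq3, hq4⟩ := hm
  have h3 : ¬ p ≤ q ⊔ k := by
    intro h4
    refine h2 (hp.2 q k h4 (not_le_of_gt hq1.1) h2 k ?_)
    rintro c hc (h5 | h5)
    · exact h1 c hc (lt_of_le_of_lt h5 hq1.1)
    · exact h5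
  exact le_sup_right.trans (hq4 _ le_sup_left h3)

end Lat

section Ortho

variable {K : Type u} [Ortholattice K] [Finite K]

open Ortholattice

/-- Every join-irreducible element has a rank. -/
def LB (K : Type u) [Lattice K] : Prop := ∀ p : K, IsJI p → ∃ n, p ∈ SS K n

theorem not_le_sup (hLB : LB K) {p q v w : K} (hq : LC p q) (hv : q ≤ v) (hw : q ≤ w)
    (hv2 : ¬ p ≤ v) (hw2 : ¬ p ≤ w) : ¬ p ≤ v ⊔ w := by
  classical
  intro hp
  have hqp : ¬ perp q ≤ perp p := by
    rw [perp_le_perp_iff]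
    exact not_le_of_gt hq.1
  have hex : ∃ n, ∃ r ∈ SS K n, r ≤ perp q ∧ ¬ r ≤ perp p := by
    obtain ⟨r, hr1, hr2, hr3⟩ := exists_min hqp
    obtain ⟨n, hn⟩ := hLB r ⟨_, hr3⟩
    exact ⟨n, r, hn, hr1, hr2⟩
  obtain ⟨r, hr, hr1, hr2⟩ := Nat.find_spec hex
  have hmin := fun m (hm : m < Nat.find hex) => Nat.find_min hex hm
  rcases hN : Nat.find hex with _ | m
  · rw [hN] at hr
    exact hr
  · rw [hN] at hr
    have hmm : ∀ c ∈ SS K m, c ≤ perp q → c ≤ perp p := by
      intro c hc h1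
      by_contra h2
      exact hmin m (by omega) ⟨c, hc, h1, h2⟩
    have key : ∀ x : K, q ≤ x → ¬ p ≤ x → r ≤ perp x := by
      intro x hx hx2
      by_contra h1
      have h2 : p ⊓ x ≤ q := hq.2 _ (lt_of_le_not_ge inf_le_left (fun h => hx2 (h.trans inf_le_right)))
      have h3 : r ≤ perp p ⊔ perp x := by
        rw [← perp_inf]
        exact hr1.trans (perp_le_perp _ _ h2)
      refine hr2 (hr.2 _ _ h3 hr2 h1 (perp p) ?_)
      rintro c hc (h4 | h4)
      · exact h4
      · exact hmm c hc (h4.trans (perp_le_perp _ _ hx))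
    have h1 : r ≤ perp (v ⊔ w) := by
      rw [perp_sup]
      exact le_inf (key v hv hv2) (key w hw hw2)
    exact hr2 (h1.trans (perp_le_perp _ _ hp))

theorem exists_kap (hLB : LB K) {p : K} (hp : IsJI p) : ∃ m, Kap p m := by
  obtain ⟨q, hq⟩ := hp
  obtain ⟨m, hm⟩ := (Set.toFinite {z : K | q ≤ z ∧ ¬ p ≤ z}).exists_maximal
    ⟨q, le_rfl, not_le_of_gt hq.1⟩
  refine ⟨m, q, hq, hm.prop.1, hm.prop.2, ?_⟩
  intro v h1 h2
  have h3 : v ⊔ m ∈ {z : K | q ≤ z ∧ ¬ p ≤ z} :=
    ⟨h1.trans le_sup_left, not_le_sup hLB hq h1 hm.prop.1 h2 hm.prop.2⟩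
  exact le_sup_left.trans (hm.le_of_ge h3 le_sup_right)

theorem kap_perp (hLB : LB K) {p m : K} (h : Kap p m) : Kap (perp m) (perp p) := by
  have hJI : LC (perp m) (perp m ⊓ perp p) := by
    refine ⟨lt_of_le_not_ge inf_le_left (fun h1 => ?_), ?_⟩
    · have h2 := h1.trans inf_le_right
      rw [perp_le_perp_iff] at h2
      exact h.not_le h2
    · intro x hx
      refine le_inf hx.le ?_
      rw [le_perp_comm]
      apply h.le_of_lt
      refine lt_of_le_not_ge (le_perp_comm.1 hx.le) (fun h1 => ?_)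
      exact absurd hx (not_lt_of_ge (perp_le_comm.1 h1))
  obtain ⟨m2, h2⟩ := exists_kap hLB ⟨_, hJI⟩
  have h2' := h2
  obtain ⟨q, h3, h4, h5, h6⟩ := h2'
  have h7 := h3.unique hJI
  subst h7
  have h8 : perp p ≤ m2 := h6 _ inf_le_right (fun h9 => h.not_le (perp_le_perp_iff.1 h9))
  have h9 : perp m2 = p := by
    by_contra h10
    have h11 : perp m2 < p := lt_of_le_of_ne (perp_le_comm.1 h8) h10
    exact h5 (perp_le_comm.1 (h.lt_le h11))
  have h10 : m2 = perp p := by rw [← h9, perp_perp]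
  rwa [h10] at h2

/-- The set of elements of rank less than `n` is closed under `p ↦ perp (κ p)`. -/
theorem sharp_closed (hLB : LB K) (n : ℕ) : ∀ p m : K, p ∈ SS K n → Kap p m → perp m ∈ SS K n := by
  induction n with
  | zero => intro p m hp; exact absurd hp (Set.notMem_empty _)
  | succ n ih =>
    intro p m hp hm
    have hmp := kap_perp hLB hm
    refine ⟨⟨_, hmp.choose_spec.1⟩, ?_⟩
    intro x y hxy hx hy z hz
    by_contra hz2
    -- an element `r` minimal below `perp z` and not below `m`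
    have h1 : ¬ perp z ≤ m := fun h => hz2 (perp_le_comm.1 h)
    obtain ⟨r, hr1, hr2, hr3⟩ := exists_min h1
    have hrlt : ∀ c, c < r → c ≤ m := fun c hc => (hr3.2 c hc).trans inf_le_right
    have hcase : ∀ x y : K, perp m ≤ x ⊔ y → ¬ perp m ≤ x →
        (∀ c ∈ SS K n, c ≤ x ∨ c ≤ y → c ≤ z) → p ≤ perp z → ¬ x ≤ perp p → False := by
      intro x y hxy hx hz hpz hxp
      obtain ⟨s, hs1, hs2, hs3⟩ := exists_min hxp
      have hslt : ∀ c, c < s → c ≤ perp p := fun c hc => (hs3.2 c hc).trans inf_le_right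
      obtain ⟨k, hk⟩ := exists_kap hLB ⟨_, hs3⟩
      have hsn : s ∉ SS K n := by
        intro h
        exact hs2 ((hz s h (Or.inl hs1)).trans (le_perp_comm.1 hpz))
      apply hsn
      -- `p` is covered by `perp k` and `perp s`
      have hks := kap_perp hLB hk
      have h2 : p ≤ perp k ⊔ perp s := by
        rw [← perp_inf, le_perp_comm]
        apply hslt
        exact lt_of_le_not_ge inf_le_right (fun h => hk.not_le (h.trans inf_le_left))
      have h3 : ¬ p ≤ perp s := fun h => hs2 (le_perp_comm.1 h)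
      have h4 : ¬ p ≤ perp k := by
        intro h
        rw [le_perp_comm] at h
        have h5 : perp p ≤ k := by
          obtain ⟨q, hq1, hq2, hq3, hq4⟩ := hk
          have h6 := hs3.unique hq1
          exact hq4 _ (by rw [← h6]; exact inf_le_right) hs2
        have h6 : k = perp p := le_antisymm h h5
        rw [h6, perp_perp] at hks
        have h7 := hks.unique hm
        apply hx
        rw [← h7, perp_perp]
        exact hs1
      have h5 : perp k ∈ SS K n := by
        by_contra h6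
        refine h3 (hp.2 _ _ h2 h4 h3 (perp s) ?_)
        rintro c hc (h7 | h7)
        · have h8 : c ≠ perp k := fun h => h6 (h ▸ hc)
          exact hks.lt_le (lt_of_le_of_ne h7 h8)
        · exact h7
      have h6 := ih _ _ h5 hks
      rwa [perp_perp] at h6
    by_cases hrp : r = p
    · subst hrp
      have h2 : ¬ x ≤ perp r ∨ ¬ y ≤ perp r := by
        by_contra h3
        rw [not_or, not_not, not_not] at h3
        exact hmp.not_le (hxy.trans (sup_le h3.1 h3.2))
      rcases h2 with h2 | h2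
      · exact hcase x y hxy hx hz hr1 h2
      · refine hcase y x (by rwa [sup_comm]) hy ?_ hr1 h2
        intro c hc h3
        exact hz c hc h3.symm
    · -- `r` has rank less than `n`
      have h2 : r ∈ SS K n := by
        by_contra h3
        have h4 : p ≤ r ⊔ m := by
          apply hm.le_of_lt
          exact lt_of_le_not_ge le_sup_right (fun h => hr2 (le_sup_left.trans h))
        have h5 : ¬ p ≤ r := by
          intro h
          exact hm.not_le (hrlt p (lt_of_le_of_ne h (Ne.symm hrp)))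
        refine hm.not_le (hp.2 _ _ h4 h5 hm.not_le m ?_)
        rintro c hc (h7 | h7)
        · have h8 : c ≠ r := fun h => h3 (h ▸ hc)
          exact hrlt c (lt_of_le_of_ne h7 h8)
        · exact h7
      obtain ⟨k, hk⟩ := exists_kap hLB (SS_isJI h2)
      have h3 := ih _ _ h2 hk
      have h4 : m ≤ k := by
        obtain ⟨q, hq1, hq2, hq3, hq4⟩ := hk
        have h6 := hr3.unique hq1
        exact hq4 _ (by rw [← h6]; exact inf_le_right) hr2
      have h5 : perp k ≤ x ⊔ y := (perp_le_perp _ _ h4).trans hxy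
      have h6 : perp k ≤ z := by
        by_cases hx2 : perp k ≤ x
        · exact hz _ h3 (Or.inl hx2)
        by_cases hy2 : perp k ≤ y
        · exact hz _ h3 (Or.inr hy2)
        exact (SS_succ n h3).2 x y h5 hx2 hy2 z hz
      exact hk.not_le (hr1.trans (perp_le_comm.1 h6))

/-- The order seen by the elements of rank less than `n` is self-dual. -/
theorem leS_perp (hLB : LB K) (n : ℕ) {x y : K} (h : leS (SS K n) x y) :
    leS (SS K n) (perp y) (perp x) := by
  classical
  intro q hq hqy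
  by_contra hqx
  have hex : ∃ j, ∃ r ∈ SS K j, r ≤ perp y ∧ ¬ r ≤ perp x := ⟨n, q, hq, hqy, hqx⟩
  obtain ⟨r, hr, hr1, hr2⟩ := Nat.find_spec hex
  have hjn : Nat.find hex ≤ n := Nat.find_min' hex ⟨q, hq, hqy, hqx⟩
  have hmin := fun m (hm : m < Nat.find hex) => Nat.find_min hex hm
  rcases hN : Nat.find hex with _ | i
  · rw [hN] at hr
    exact hr
  · rw [hN] at hr hjn
    obtain ⟨m, hm⟩ := exists_kap hLB (SS_isJI hr)
    have h1 : perp x ≤ m := by
      refine coverA hr hm ?_ hr2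
      intro c hc hcr
      by_contra h2
      exact hmin i (by omega) ⟨c, hc, hcr.le.trans hr1, h2⟩
    have h2 : perp m ∈ SS K n := SS_mono hjn (sharp_closed hLB _ _ _ hr hm)
    have h3 := h _ h2 (perp_le_comm.1 h1)
    exact hm.not_le (hr1.trans (perp_le_comm.1 h3))

/-- An atom is join-prime. -/
theorem atom_prime (hLB : LB K) {w : K} (hw : LC w ⊥) {x y : K} (h : w ≤ x ⊔ y) :
    w ≤ x ∨ w ≤ y := by
  by_contra h2
  rw [not_or] at h2
  exact not_le_sup hLB hw bot_le bot_le h2.1 h2.2 h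

theorem exists_atom {x : K} (h : x ≠ ⊥) : ∃ w, LC w ⊥ ∧ w ≤ x := by
  have h1 : ¬ x ≤ ⊥ := fun h2 => h (le_bot_iff.1 h2)
  obtain ⟨q, h2, h3, h4⟩ := exists_min h1
  rw [inf_bot_eq] at h4
  exact ⟨q, h4, h2⟩

theorem atom_mem (hLB : LB K) {w : K} (hw : LC w ⊥) : w ∈ SS K 1 := by
  refine ⟨⟨_, hw⟩, ?_⟩
  intro x y h1 h2 h3
  rcases atom_prime hLB hw h1 with h | h
  · exact absurd h h2
  · exact absurd h h3

theorem atom_le_or (hLB : LB K) {w : K} (hw : LC w ⊥) (k : K) : w ≤ k ∨ w ≤ perp k := by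
  apply atom_prime hLB hw
  rw [sup_perp]
  exact le_top

theorem atom_not_both {w : K} (hw : LC w ⊥) {k : K} (h1 : w ≤ k) (h2 : w ≤ perp k) : False :=
  hw.1.ne' (eq_bot_of h1 h2)

end Ortho

end Pool.Agent.H398
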