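import Mathlib.Order.Lattice
import Mathlib.Order.BoundedOrder.Lattice
import Mathlib.Logic.Relation
import Mathlib.Data.Set.Basic
import Mathlib.Data.Set.Card
import Mathlib.Order.Preorder.Finite

/-!
# Ortholattices and the ortholattice of regular closed subsets of a strict ordering
-/

set_option autoImplicit false
set_option linter.unusedSectionVars false

universe u

namespace Pool.Agent.H398

/-- An ortholattice: a bounded lattice with an order-reversing involution `perp` such that
`x ⊓ perp x = ⊥`. -/
class Ortholattice (L : Type u) extends Lattice L, BoundedOrder L where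
  /-- The orthocomplementation. -/
  perp : L → L
  perp_le_perp : ∀ x y : L, x ≤ y → perp y ≤ perp x
  perp_perp : ∀ x : L, perp (perp x) = x
  inf_perp : ∀ x : L, x ⊓ perp x = ⊥

/-- A strict ordering on `E`: an irreflexive and transitive set of ordered pairs. -/
structure StrictOrdering (E : Type u) where
  /-- The set of pairs. -/
  rel : Set (E × E)
  irrefl : ∀ x, (x, x) ∉ rel
  trans : ∀ x y z, (x, y) ∈ rel → (y, z) ∈ rel → (x, z) ∈ rel

section Reg

variable {E : Type u}

/-- The transitive closure of a set of pairs. -/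
def cl (a : Set (E × E)) : Set (E × E) :=
  {p | Relation.TransGen (fun x y => (x, y) ∈ a) p.1 p.2}

/-- The interior of `a` in the strict ordering `e`: the complement in `e` of the transitive closure
of the complement of `a` in `e`. It is the largest open subset of `a`, see `interior_isGreatest`. -/
def interior (e : StrictOrdering E) (a : Set (E × E)) : Set (E × E) := e.rel \ cl (e.rel \ a)

/-- The regular closed subsets of `e`: the sets `a` with `a = cl (interior a)`. -/
def Reg (e : StrictOrdering E) : Type u := {a : Set (E × E) // a = cl (interior e a)}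

theorem sub_cl (a : Set (E × E)) : a ⊆ cl a := fun _ hp => Relation.TransGen.single hp

theorem tlift {α β : Type*} {r : α → α → Prop} {s : β → β → Prop} (f : α → β)
    (h : ∀ a b, r a b → s (f a) (f b)) {x y : α} (hxy : Relation.TransGen r x y) :
    Relation.TransGen s (f x) (f y) := by
  induction hxy with
  | single h1 => exact Relation.TransGen.single (h _ _ h1)
  | tail _ h2 ih => exact Relation.TransGen.tail ih (h _ _ h2)

theorem cl_mono {a b : Set (E × E)} (h : a ⊆ b) : cl a ⊆ cl b :=
  fun _ hp => tlift id (fun _ _ hxy => h hxy) hp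

theorem cl_idem (a : Set (E × E)) : cl (cl a) = cl a := by
  apply Set.Subset.antisymm
  · rintro ⟨x, y⟩ hp
    have hp2 : Relation.TransGen (fun x y => (x, y) ∈ cl a) x y := hp
    clear hp
    show Relation.TransGen (fun x y => (x, y) ∈ a) x y
    induction hp2 with
    | single h1 => exact h1
    | tail _ h2 ih => exact Relation.TransGen.trans ih h2
  · exact sub_cl _

theorem cl_trans {a : Set (E × E)} {x y z : E} (h1 : (x, y) ∈ cl a) (h2 : (y, z) ∈ cl a) :
    (x, z) ∈ cl a := Relation.TransGen.trans h1 h2

theorem cl_sub {a b : Set (E × E)} (h : a ⊆ b)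
    (hb : ∀ x y z, (x, y) ∈ b → (y, z) ∈ b → (x, z) ∈ b) : cl a ⊆ b := by
  rintro ⟨x, y⟩ hp
  have hp2 : Relation.TransGen (fun x y => (x, y) ∈ a) x y := hp
  clear hp
  induction hp2 with
  | single h1 => exact h h1
  | tail _ h2 ih => exact hb _ _ _ ih (h h2)

theorem cl_sub_rel (e : StrictOrdering E) {a : Set (E × E)} (h : a ⊆ e.rel) : cl a ⊆ e.rel :=
  cl_sub h e.trans

variable (e : StrictOrdering E)

theorem interior_sub (a : Set (E × E)) : interior e a ⊆ a := by
  intro p hp
  by_contra h
  exact hp.2 (sub_cl _ ⟨hp.1, h⟩)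

theorem interior_sub_rel (a : Set (E × E)) : interior e a ⊆ e.rel := fun _ hp => hp.1

theorem interior_mono {a b : Set (E × E)} (h : a ⊆ b) : interior e a ⊆ interior e b := by
  intro p hp
  have h1 : e.rel \ b ⊆ e.rel \ a := fun q hq => ⟨hq.1, fun h3 => hq.2 (h h3)⟩
  exact ⟨hp.1, fun h2 => hp.2 (cl_mono h1 h2)⟩

theorem rel_diff_interior (a : Set (E × E)) : e.rel \ interior e a = cl (e.rel \ a) := by
  apply Set.Subset.antisymm
  · intro p hp
    by_contra h
    exact hp.2 ⟨hp.1, h⟩
  · intro p hp
    exact ⟨cl_sub_rel e (fun _ hq => hq.1) hp, fun h => h.2 hp⟩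

theorem interior_idem (a : Set (E × E)) : interior e (interior e a) = interior e a := by
  conv_lhs => unfold interior
  rw [show e.rel \ (e.rel \ cl (e.rel \ a)) = cl (e.rel \ a) from rel_diff_interior e a, cl_idem]
  rfl

/-- The interior of `a` is the largest open subset of `a`, where `b ⊆ e` is open if `e \ b` is
closed, that is, transitive. -/
theorem interior_isGreatest {a : Set (E × E)} :
    IsGreatest {b : Set (E × E) | b ⊆ e.rel ∧ b ⊆ a ∧
      ∀ x y z, (x, y) ∈ e.rel \ b → (y, z) ∈ e.rel \ b → (x, z) ∈ e.rel \ b} (interior e a) := by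
  constructor
  · refine ⟨interior_sub_rel e a, interior_sub e a, ?_⟩
    intro x y z h1 h2
    rw [rel_diff_interior] at h1 h2 ⊢
    exact cl_trans h1 h2
  · rintro b ⟨hb1, hb2, hb3⟩ p hp
    refine ⟨hb1 hp, fun h => ?_⟩
    have h2 : cl (e.rel \ a) ⊆ e.rel \ b :=
      cl_sub (fun q hq => ⟨hq.1, fun h3 => hq.2 (hb2 h3)⟩) hb3
    exact (h2 h).2 hp

theorem reg_cl_interior (a : Set (E × E)) :
    cl (interior e a) = cl (interior e (cl (interior e a))) := by
  apply Set.Subset.antisymm
  · apply cl_mono
    conv_lhs => rw [← interior_idem]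
    exact interior_mono e (sub_cl _)
  · have h := cl_mono (interior_sub e (cl (interior e a)))
    rwa [cl_idem] at h

theorem reg_cl_union {a b : Set (E × E)} (ha : a = cl (interior e a))
    (hb : b = cl (interior e b)) : cl (a ∪ b) = cl (interior e (cl (a ∪ b))) := by
  apply Set.Subset.antisymm
  · have h1 : a ∪ b ⊆ cl (interior e (cl (a ∪ b))) := by
      apply Set.union_subset
      · have h2 : cl (interior e a) ⊆ cl (interior e (cl (a ∪ b))) :=
          cl_mono (interior_mono e (Set.subset_union_left.trans (sub_cl _)))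
        rwa [← ha] at h2
      · have h2 : cl (interior e b) ⊆ cl (interior e (cl (a ∪ b))) :=
          cl_mono (interior_mono e (Set.subset_union_right.trans (sub_cl _)))
        rwa [← hb] at h2
    have h3 := cl_mono h1
    rwa [cl_idem] at h3
  · have h := cl_mono (interior_sub e (cl (a ∪ b)))
    rwa [cl_idem] at h

theorem reg_closed {a : Set (E × E)} (ha : a = cl (interior e a)) : cl a = a := by
  conv_lhs => rw [ha]
  rw [cl_idem, ← ha]

theorem reg_sub_rel {a : Set (E × E)} (ha : a = cl (interior e a)) : a ⊆ e.rel := by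
  rw [ha]
  exact cl_sub_rel e (interior_sub_rel e a)

theorem rel_diff_cl {a : Set (E × E)} (ha : a ⊆ e.rel) : e.rel \ cl a = interior e (e.rel \ a) := by
  unfold interior
  rw [show e.rel \ (e.rel \ a) = a from Set.sdiff_sdiff_cancel_left ha]

theorem reg_perp {a : Set (E × E)} (ha : a = cl (interior e a)) :
    cl (e.rel \ a) = cl (interior e (cl (e.rel \ a))) := by
  have h : e.rel \ a = interior e (e.rel \ interior e a) := by
    conv_lhs => rw [ha]
    exact rel_diff_cl e (interior_sub_rel e a)
  rw [h]
  exact reg_cl_interior e _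

/-- The regular closed sets are ordered by inclusion. -/
instance : PartialOrder (Reg e) := Subtype.partialOrder _

/-- The lattice of the regular closed subsets of `e`, ordered by inclusion. -/
instance : Lattice (Reg e) where
  sup a b := ⟨cl (a.1 ∪ b.1), reg_cl_union e a.2 b.2⟩
  inf a b := ⟨cl (interior e (a.1 ∩ b.1)), reg_cl_interior e _⟩
  le_sup_left a b := show a.1 ⊆ cl (a.1 ∪ b.1) from Set.subset_union_left.trans (sub_cl _)
  le_sup_right a b := show b.1 ⊆ cl (a.1 ∪ b.1) from Set.subset_union_right.trans (sub_cl _)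
  sup_le a b c hac hbc := show cl (a.1 ∪ b.1) ⊆ c.1 by
    have h := cl_mono (Set.union_subset (show a.1 ⊆ c.1 from hac) (show b.1 ⊆ c.1 from hbc))
    rwa [reg_closed e c.2] at h
  inf_le_left a b := show cl (interior e (a.1 ∩ b.1)) ⊆ a.1 by
    have h := cl_mono ((interior_sub e (a.1 ∩ b.1)).trans Set.inter_subset_left)
    rwa [reg_closed e a.2] at h
  inf_le_right a b := show cl (interior e (a.1 ∩ b.1)) ⊆ b.1 by
    have h := cl_mono ((interior_sub e (a.1 ∩ b.1)).trans Set.inter_subset_right)
    rwa [reg_closed e b.2] at h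
  le_inf a b c hab hac := show a.1 ⊆ cl (interior e (b.1 ∩ c.1)) by
    have h := cl_mono (interior_mono e
      (Set.subset_inter (show a.1 ⊆ b.1 from hab) (show a.1 ⊆ c.1 from hac)))
    rwa [← a.2] at h

theorem cl_empty : cl (∅ : Set (E × E)) = ∅ := by
  apply Set.Subset.antisymm
  · exact cl_sub (Set.Subset.refl _) (fun _ _ _ h _ => absurd h (Set.notMem_empty _))
  · exact Set.empty_subset _

theorem interior_empty : interior e (∅ : Set (E × E)) = ∅ :=
  Set.Subset.antisymm (interior_sub e _) (Set.empty_subset _)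

theorem cl_rel : cl e.rel = e.rel :=
  Set.Subset.antisymm (cl_sub_rel e (Set.Subset.refl _)) (sub_cl _)

theorem interior_rel : interior e e.rel = e.rel := by
  unfold interior
  rw [Set.sdiff_self, cl_empty, Set.sdiff_empty]

/-- The ortholattice of the regular closed subsets of `e`, with bottom element `∅`, top element `e`
and orthocomplementation `a ↦ cl (e \ a)`. -/
instance : Ortholattice (Reg e) where
  bot := ⟨∅, by rw [interior_empty, cl_empty]⟩
  top := ⟨e.rel, by rw [interior_rel, cl_rel]⟩
  bot_le a := Set.empty_subset a.1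
  le_top a := reg_sub_rel e a.2
  perp a := ⟨cl (e.rel \ a.1), reg_perp e a.2⟩
  perp_le_perp a b h := cl_mono (fun _ hp => ⟨hp.1, fun h2 => hp.2 (h h2)⟩)
  perp_perp a := Subtype.ext a.2.symm
  inf_perp a := by
    apply Subtype.ext
    show cl (interior e (a.1 ∩ cl (e.rel \ a.1))) = ∅
    have h : interior e (a.1 ∩ cl (e.rel \ a.1)) = ∅ := by
      apply Set.Subset.antisymm ?_ (Set.empty_subset _)
      intro p hp
      have h1 : p ∈ interior e a.1 := interior_mono e Set.inter_subset_left hp
      have h2 : p ∈ cl (e.rel \ a.1) := (interior_sub e _ hp).2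
      exact h1.2 h2
    rw [h, cl_empty]

end Reg

/-! ### Elementary facts on ortholattices -/

section Basic

variable {K : Type u} [Ortholattice K]

open Ortholattice

theorem perp_le_perp_iff {x y : K} : perp x ≤ perp y ↔ y ≤ x := by
  constructor
  · intro h
    have h2 := perp_le_perp _ _ h
    rwa [perp_perp, perp_perp] at h2
  · exact perp_le_perp _ _

theorem le_perp_comm {x y : K} : x ≤ perp y ↔ y ≤ perp x := by
  rw [← perp_le_perp_iff, perp_perp]

theorem perp_le_comm {x y : K} : perp x ≤ y ↔ perp y ≤ x := by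
  rw [← perp_le_perp_iff, perp_perp]

theorem perp_sup (x y : K) : perp (x ⊔ y) = perp x ⊓ perp y := by
  apply le_antisymm
  · exact le_inf (perp_le_perp _ _ le_sup_left) (perp_le_perp _ _ le_sup_right)
  · rw [le_perp_comm]
    exact sup_le (le_perp_comm.1 inf_le_left) (le_perp_comm.1 inf_le_right)

theorem perp_inf (x y : K) : perp (x ⊓ y) = perp x ⊔ perp y := by
  have h := perp_sup (perp x) (perp y)
  rw [perp_perp, perp_perp] at h
  rw [← h, perp_perp]

theorem inf_eq_perp (x y : K) : x ⊓ y = perp (perp x ⊔ perp y) := by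
  rw [perp_sup, perp_perp, perp_perp]

theorem perp_bot : perp (⊥ : K) = ⊤ := by
  apply le_antisymm le_top
  rw [le_perp_comm]
  exact bot_le

theorem perp_top : perp (⊤ : K) = ⊥ := by
  rw [← perp_bot, perp_perp]

theorem sup_perp (x : K) : x ⊔ perp x = ⊤ := by
  have h := perp_inf x (perp x)
  rw [inf_perp, perp_bot, perp_perp, sup_comm] at h
  exact h.symm

theorem eq_bot_of {x y : K} (h1 : x ≤ y) (h2 : x ≤ perp y) : x = ⊥ := by
  rw [← le_bot_iff, ← inf_perp y]
  exact le_inf h1 h2

end Basic

end Pool.Agent.H398
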