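import Pool.Agent.H398.Kappa
import Mathlib.Data.Finite.Sigma

/-!
# Labelled finite strict orderings and the gluing construction
-/

set_option autoImplicit false
set_option linter.unusedSectionVars false

universe u v

namespace Pool.Agent.H398

variable {K : Type u} [Ortholattice K]

open Ortholattice

/-- A labelling of the pairs of a strict ordering by sets of elements of an ortholattice which
gives rise to a homomorphism of ortholattices. -/
structure IsRep (S : Set K) {E : Type v} (lt : E → E → Prop) (I : E → E → Set K) : Prop where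
  irrefl : ∀ s, ¬ lt s s
  trans : ∀ s r t, lt s r → lt r t → lt s t
  up : ∀ s t k l, lt s t → leS S k l → k ∈ I s t → l ∈ I s t
  cm : ∀ s t k, lt s t → k ∈ I s t ∨ perp k ∈ I s t
  tri : ∀ s r t k, lt s r → lt r t → k ∈ I s r → k ∈ I r t → k ∈ I s t
  jn : ∀ s t k l, lt s t → k ⊔ l ∈ I s t → k ∈ I s t ∨ l ∈ I s t ∨
    ∃ r, lt s r ∧ lt r t ∧ k ⊔ l ∈ I s r ∧ k ⊔ l ∈ I r t
  orr : ∀ s t k, lt s t → k ∈ I s t → perp k ∈ I s t →
    ∃ r, lt s r ∧ lt r t ∧ k ∈ I s r ∧ k ∈ I r t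

/-- The middle part of a labelled bounded strict ordering; `L` are the labels of the pairs starting
at the bottom and `R` the labels of the pairs ending at the top. -/
structure MidRep (S : Set K) {M : Type u} (lt : M → M → Prop) (I : M → M → Set K)
    (L R : M → Set K) : Prop where
  irrefl : ∀ s, ¬ lt s s
  trans : ∀ s r t, lt s r → lt r t → lt s t
  upI : ∀ s t k l, lt s t → leS S k l → k ∈ I s t → l ∈ I s t
  upL : ∀ s k l, leS S k l → k ∈ L s → l ∈ L s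
  upR : ∀ s k l, leS S k l → k ∈ R s → l ∈ R s
  cmI : ∀ s t k, lt s t → k ∈ I s t ∨ perp k ∈ I s t
  cmL : ∀ s k, k ∈ L s ∨ perp k ∈ L s
  cmR : ∀ s k, k ∈ R s ∨ perp k ∈ R s
  triI : ∀ s r t k, lt s r → lt r t → k ∈ I s r → k ∈ I r t → k ∈ I s t
  triL : ∀ r t k, lt r t → k ∈ L r → k ∈ I r t → k ∈ L t
  triR : ∀ s r k, lt s r → k ∈ I s r → k ∈ R r → k ∈ R s
  jnI : ∀ s t k l, lt s t → k ⊔ l ∈ I s t → k ∈ I s t ∨ l ∈ I s t ∨
    ∃ r, lt s r ∧ lt r t ∧ k ⊔ l ∈ I s r ∧ k ⊔ l ∈ I r t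
  jnL : ∀ t k l, k ⊔ l ∈ L t → k ∈ L t ∨ l ∈ L t ∨ ∃ r, lt r t ∧ k ⊔ l ∈ L r ∧ k ⊔ l ∈ I r t
  jnR : ∀ s k l, k ⊔ l ∈ R s → k ∈ R s ∨ l ∈ R s ∨ ∃ r, lt s r ∧ k ⊔ l ∈ I s r ∧ k ⊔ l ∈ R r
  orI : ∀ s t k, lt s t → k ∈ I s t → perp k ∈ I s t →
    ∃ r, lt s r ∧ lt r t ∧ k ∈ I s r ∧ k ∈ I r t
  orL : ∀ t k, k ∈ L t → perp k ∈ L t → ∃ r, lt r t ∧ k ∈ L r ∧ k ∈ I r t
  orR : ∀ s k, k ∈ R s → perp k ∈ R s → ∃ r, lt s r ∧ k ∈ I s r ∧ k ∈ R r

theorem MidRep.dual {S : Set K} {M : Type u} {lt : M → M → Prop} {I : M → M → Set K}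
    {L R : M → Set K} (h : MidRep S lt I L R) :
    MidRep S (fun a b => lt b a) (fun a b => I b a) R L where
  irrefl := h.irrefl
  trans s r t h1 h2 := h.trans _ _ _ h2 h1
  upI s t := h.upI t s
  upL := h.upR
  upR := h.upL
  cmI s t := h.cmI t s
  cmL := h.cmR
  cmR := h.cmL
  triI s r t k h1 h2 h3 h4 := h.triI t r s k h2 h1 h4 h3
  triL r t k h1 h2 h3 := h.triR _ _ _ h1 h3 h2
  triR s r k h1 h2 h3 := h.triL _ _ _ h1 h3 h2
  jnI s t k l h1 h2 := by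
    rcases h.jnI _ _ _ _ h1 h2 with h3 | h3 | ⟨r, h3, h4, h5, h6⟩
    · exact Or.inl h3
    · exact Or.inr (Or.inl h3)
    · exact Or.inr (Or.inr ⟨r, h4, h3, h6, h5⟩)
  jnL t k l h2 := by
    rcases h.jnR _ _ _ h2 with h3 | h3 | ⟨r, h3, h5, h6⟩
    · exact Or.inl h3
    · exact Or.inr (Or.inl h3)
    · exact Or.inr (Or.inr ⟨r, h3, h6, h5⟩)
  jnR t k l h2 := by
    rcases h.jnL _ _ _ h2 with h3 | h3 | ⟨r, h3, h5, h6⟩
    · exact Or.inl h3
    · exact Or.inr (Or.inl h3)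
    · exact Or.inr (Or.inr ⟨r, h3, h6, h5⟩)
  orI s t k h1 h2 h3 := by
    obtain ⟨r, h4, h5, h6, h7⟩ := h.orI _ _ _ h1 h2 h3
    exact ⟨r, h5, h4, h7, h6⟩
  orL s k h2 h3 := by
    obtain ⟨r, h4, h6, h7⟩ := h.orR _ _ h2 h3
    exact ⟨r, h4, h7, h6⟩
  orR s k h2 h3 := by
    obtain ⟨r, h4, h6, h7⟩ := h.orL _ _ h2 h3
    exact ⟨r, h4, h7, h6⟩

theorem mid_of_rep [Finite K] (hLB : LB K) {S : Set K} {w : K} (hw : LC w ⊥) (hwS : w ∈ S)
    {E : Type u} {lt : E → E → Prop} {I : E → E → Set K} (h : IsRep S lt I) (y : E) :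
    MidRep S (M := {s : E // lt s y}) (fun a b => lt a.1 b.1) (fun a b => I a.1 b.1)
      (fun _ => {k | w ≤ k}) (fun a => I a.1 y) where
  irrefl s := h.irrefl s.1
  trans s r t h1 h2 := h.trans _ _ _ h1 h2
  upI s t := h.up s.1 t.1
  upL s k l h1 h2 := h1 w hwS h2
  upR s k l := h.up s.1 y k l s.2
  cmI s t := h.cm s.1 t.1
  cmL s k := atom_le_or hLB hw k
  cmR s k := h.cm s.1 y k s.2
  triI s r t k := h.tri s.1 r.1 t.1 k
  triL r t k h1 h2 h3 := h2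
  triR s r k h1 h2 h3 := h.tri s.1 r.1 y k h1 r.2 h2 h3
  jnI s t k l h1 h2 := by
    rcases h.jn s.1 t.1 k l h1 h2 with h3 | h3 | ⟨r, h3, h4, h5, h6⟩
    · exact Or.inl h3
    · exact Or.inr (Or.inl h3)
    · exact Or.inr (Or.inr ⟨⟨r, h.trans _ _ _ h4 t.2⟩, h3, h4, h5, h6⟩)
  jnL t k l h2 := by
    rcases atom_prime hLB hw h2 with h3 | h3
    · exact Or.inl h3
    · exact Or.inr (Or.inl h3)
  jnR s k l h2 := by
    rcases h.jn s.1 y k l s.2 h2 with h3 | h3 | ⟨r, h3, h4, h5, h6⟩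
    · exact Or.inl h3
    · exact Or.inr (Or.inl h3)
    · exact Or.inr (Or.inr ⟨⟨r, h4⟩, h3, h5, h6⟩)
  orI s t k h1 h2 h3 := by
    obtain ⟨r, h4, h5, h6, h7⟩ := h.orr s.1 t.1 k h1 h2 h3
    exact ⟨⟨r, h.trans _ _ _ h5 t.2⟩, h4, h5, h6, h7⟩
  orL t k h1 h2 := absurd h2 (fun h3 => atom_not_both hw h1 h3)
  orR s k h2 h3 := by
    obtain ⟨r, h4, h5, h6, h7⟩ := h.orr s.1 y k s.2 h2 h3
    exact ⟨⟨r, h5⟩, h4, h6, h7⟩

/-! ### Disjoint unions -/

section Sigma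

variable {G : Type u} {M : G → Type u}

/-- The disjoint union of relations. -/
inductive SLt (lt : ∀ g, M g → M g → Prop) : (Σ g, M g) → (Σ g, M g) → Prop
  | mk (g : G) (a b : M g) : lt g a b → SLt lt ⟨g, a⟩ ⟨g, b⟩

/-- The disjoint union of labellings. -/
inductive SI (I : ∀ g, M g → M g → Set K) : (Σ g, M g) → (Σ g, M g) → K → Prop
  | mk (g : G) (a b : M g) (k : K) : k ∈ I g a b → SI I ⟨g, a⟩ ⟨g, b⟩ k

theorem sLt_iff {lt : ∀ g, M g → M g → Prop} {g : G} {a b : M g} :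
    SLt lt ⟨g, a⟩ ⟨g, b⟩ ↔ lt g a b := by
  constructor
  · intro h
    cases h
    assumption
  · exact SLt.mk g a b

theorem sI_iff {I : ∀ g, M g → M g → Set K} {g : G} {a b : M g} {k : K} :
    SI I ⟨g, a⟩ ⟨g, b⟩ k ↔ k ∈ I g a b := by
  constructor
  · intro h
    cases h
    assumption
  · exact SI.mk g a b k

theorem mid_sigma {S : Set K} {lt : ∀ g, M g → M g → Prop} {I : ∀ g, M g → M g → Set K}
    {L R : ∀ g, M g → Set K} (h : ∀ g, MidRep S (lt g) (I g) (L g) (R g)) :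
    MidRep S (SLt lt) (fun x y => {k | SI I x y k}) (fun x => L x.1 x.2) (fun x => R x.1 x.2) where
  irrefl := by
    rintro ⟨g, a⟩ h1
    exact (h g).irrefl a (sLt_iff.1 h1)
  trans := by
    rintro _ _ _ ⟨g, a, b, h1⟩ h2
    cases h2 with
    | mk _ _ c h2 => exact SLt.mk _ _ _ ((h g).trans _ _ _ h1 h2)
  upI := by
    rintro _ _ k l ⟨g, a, b, h1⟩ h2 h3
    exact sI_iff.2 ((h g).upI _ _ _ _ h1 h2 (sI_iff.1 h3))
  upL s := (h s.1).upL s.2
  upR s := (h s.1).upR s.2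
  cmI := by
    rintro _ _ k ⟨g, a, b, h1⟩
    exact ((h g).cmI _ _ k h1).imp sI_iff.2 sI_iff.2
  cmL s := (h s.1).cmL s.2
  cmR s := (h s.1).cmR s.2
  triI := by
    rintro _ _ _ k ⟨g, a, b, h1⟩ h2
    cases h2 with
    | mk _ _ c h2 =>
      intro h3 h4
      exact sI_iff.2 ((h g).triI _ _ _ _ h1 h2 (sI_iff.1 h3) (sI_iff.1 h4))
  triL := by
    rintro _ _ k ⟨g, a, b, h1⟩ h2 h3
    exact (h g).triL _ _ _ h1 h2 (sI_iff.1 h3)
  triR := by
    rintro _ _ k ⟨g, a, b, h1⟩ h2 h3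
    exact (h g).triR _ _ _ h1 (sI_iff.1 h2) h3
  jnI := by
    rintro _ _ k l ⟨g, a, b, h1⟩ h2
    rcases (h g).jnI _ _ _ _ h1 (sI_iff.1 h2) with h3 | h3 | ⟨r, h3, h4, h5, h6⟩
    · exact Or.inl (sI_iff.2 h3)
    · exact Or.inr (Or.inl (sI_iff.2 h3))
    · exact Or.inr (Or.inr ⟨⟨g, r⟩, sLt_iff.2 h3, sLt_iff.2 h4, sI_iff.2 h5, sI_iff.2 h6⟩)
  jnL := by
    rintro ⟨g, a⟩ k l h2
    rcases (h g).jnL _ _ _ h2 with h3 | h3 | ⟨r, h3, h5, h6⟩
    · exact Or.inl h3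
    · exact Or.inr (Or.inl h3)
    · exact Or.inr (Or.inr ⟨⟨g, r⟩, sLt_iff.2 h3, h5, sI_iff.2 h6⟩)
  jnR := by
    rintro ⟨g, a⟩ k l h2
    rcases (h g).jnR _ _ _ h2 with h3 | h3 | ⟨r, h3, h5, h6⟩
    · exact Or.inl h3
    · exact Or.inr (Or.inl h3)
    · exact Or.inr (Or.inr ⟨⟨g, r⟩, sLt_iff.2 h3, sI_iff.2 h5, h6⟩)
  orI := by
    rintro _ _ k ⟨g, a, b, h1⟩ h2 h3
    obtain ⟨r, h4, h5, h6, h7⟩ := (h g).orI _ _ _ h1 (sI_iff.1 h2) (sI_iff.1 h3)
    exact ⟨⟨g, r⟩, sLt_iff.2 h4, sLt_iff.2 h5, sI_iff.2 h6, sI_iff.2 h7⟩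
  orL := by
    rintro ⟨g, a⟩ k h2 h3
    obtain ⟨r, h4, h6, h7⟩ := (h g).orL _ _ h2 h3
    exact ⟨⟨g, r⟩, sLt_iff.2 h4, h6, sI_iff.2 h7⟩
  orR := by
    rintro ⟨g, a⟩ k h2 h3
    obtain ⟨r, h4, h6, h7⟩ := (h g).orR _ _ h2 h3
    exact ⟨⟨g, r⟩, sLt_iff.2 h4, sI_iff.2 h6, h7⟩

theorem rep_sigma {S : Set K} {lt : ∀ g, M g → M g → Prop} {I : ∀ g, M g → M g → Set K}
    (h : ∀ g, IsRep S (lt g) (I g)) : IsRep S (SLt lt) (fun x y => {k | SI I x y k}) where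
  irrefl := by
    rintro ⟨g, a⟩ h1
    exact (h g).irrefl a (sLt_iff.1 h1)
  trans := by
    rintro _ _ _ ⟨g, a, b, h1⟩ h2
    cases h2 with
    | mk _ _ c h2 => exact SLt.mk _ _ _ ((h g).trans _ _ _ h1 h2)
  up := by
    rintro _ _ k l ⟨g, a, b, h1⟩ h2 h3
    exact sI_iff.2 ((h g).up _ _ _ _ h1 h2 (sI_iff.1 h3))
  cm := by
    rintro _ _ k ⟨g, a, b, h1⟩
    exact ((h g).cm _ _ k h1).imp sI_iff.2 sI_iff.2
  tri := by
    rintro _ _ _ k ⟨g, a, b, h1⟩ h2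
    cases h2 with
    | mk _ _ c h2 =>
      intro h3 h4
      exact sI_iff.2 ((h g).tri _ _ _ _ h1 h2 (sI_iff.1 h3) (sI_iff.1 h4))
  jn := by
    rintro _ _ k l ⟨g, a, b, h1⟩ h2
    rcases (h g).jn _ _ _ _ h1 (sI_iff.1 h2) with h3 | h3 | ⟨r, h3, h4, h5, h6⟩
    · exact Or.inl (sI_iff.2 h3)
    · exact Or.inr (Or.inl (sI_iff.2 h3))
    · exact Or.inr (Or.inr ⟨⟨g, r⟩, sLt_iff.2 h3, sLt_iff.2 h4, sI_iff.2 h5, sI_iff.2 h6⟩)
  orr := by
    rintro _ _ k ⟨g, a, b, h1⟩ h2 h3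
    obtain ⟨r, h4, h5, h6, h7⟩ := (h g).orr _ _ _ h1 (sI_iff.1 h2) (sI_iff.1 h3)
    exact ⟨⟨g, r⟩, sLt_iff.2 h4, sLt_iff.2 h5, sI_iff.2 h6, sI_iff.2 h7⟩

end Sigma

/-! ### Adding a bottom and a top -/

section Bounded

/-- `M` with a new bottom and a new top. -/
inductive Bd (M : Type u) : Type u
  | bot : Bd M
  | top : Bd M
  | mid : M → Bd M

/-- The extended strict ordering. -/
inductive BLt {M : Type u} (lt : M → M → Prop) : Bd M → Bd M → Prop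
  | bt : BLt lt .bot .top
  | bm (a : M) : BLt lt .bot (.mid a)
  | mt (a : M) : BLt lt (.mid a) .top
  | mm (a b : M) : lt a b → BLt lt (.mid a) (.mid b)

/-- The extended labelling. -/
inductive BI {M : Type u} (I : M → M → Set K) (L R : M → Set K) (A : Set K) :
    Bd M → Bd M → K → Prop
  | chain (a : M) (k : K) : k ∈ L a → k ∈ R a → BI I L R A .bot .top k
  | ext (k : K) : k ∈ A → BI I L R A .bot .top k
  | bm (a : M) (k : K) : k ∈ L a → BI I L R A .bot (.mid a) k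
  | mt (a : M) (k : K) : k ∈ R a → BI I L R A (.mid a) .top k
  | mm (a b : M) (k : K) : k ∈ I a b → BI I L R A (.mid a) (.mid b) k

theorem finite_bd {M : Type u} [Finite M] : Finite (Bd M) := by
  have h : Function.Surjective (fun x : Option (Option M) => match x with
    | none => Bd.bot
    | some none => Bd.top
    | some (some m) => Bd.mid m) := by
    rintro (_ | _ | m)
    · exact ⟨none, rfl⟩
    · exact ⟨some none, rfl⟩
    · exact ⟨some (some m), rfl⟩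
  exact Finite.of_surjective _ h

variable {M : Type u} {lt : M → M → Prop} {I : M → M → Set K} {L R : M → Set K} {A : Set K}

theorem bI_bt {k : K} : BI I L R A .bot .top k ↔ (∃ a, k ∈ L a ∧ k ∈ R a) ∨ k ∈ A := by
  constructor
  · intro h
    cases h with
    | chain a _ h1 h2 => exact Or.inl ⟨a, h1, h2⟩
    | ext _ h1 => exact Or.inr h1
  · rintro (⟨a, h1, h2⟩ | h1)
    · exact BI.chain a k h1 h2
    · exact BI.ext k h1

theorem bI_bm {a : M} {k : K} : BI I L R A .bot (.mid a) k ↔ k ∈ L a := by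
  constructor
  · intro h
    cases h
    assumption
  · exact BI.bm a k

theorem bI_mt {a : M} {k : K} : BI I L R A (.mid a) .top k ↔ k ∈ R a := by
  constructor
  · intro h
    cases h
    assumption
  · exact BI.mt a k

theorem bI_mm {a b : M} {k : K} : BI I L R A (.mid a) (.mid b) k ↔ k ∈ I a b := by
  constructor
  · intro h
    cases h
    assumption
  · exact BI.mm a b k

theorem rep_of_mid {S S' : Set K} (hS : S ⊆ S') (h : MidRep S lt I L R)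
    (upA : ∀ k l, leS S' k l → k ∈ A → l ∈ A)
    (cmA : ∀ k, BI I L R A .bot .top k ∨ BI I L R A .bot .top (perp k))
    (jnA : ∀ k l, k ⊔ l ∈ A → BI I L R A .bot .top k ∨ BI I L R A .bot .top l ∨
      ∃ a, k ⊔ l ∈ L a ∧ k ⊔ l ∈ R a)
    (orA : ∀ k, BI I L R A .bot .top k → BI I L R A .bot .top (perp k) →
      ∃ a, k ∈ L a ∧ k ∈ R a) :
    IsRep S' (BLt lt) (fun x y => {k | BI I L R A x y k}) where
  irrefl := by
    rintro (_ | _ | a) h1
    · cases h1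
    · cases h1
    · cases h1 with
      | mm _ _ h1 => exact h.irrefl _ h1
  trans := by
    rintro s r t h1 h2
    cases h1 with
    | bt => cases h2
    | bm a =>
      cases h2 with
      | mt => exact BLt.bt
      | mm _ b h2 => exact BLt.bm _
    | mt a => cases h2
    | mm a b h1 =>
      cases h2 with
      | mt => exact BLt.mt _
      | mm _ c h2 => exact BLt.mm _ _ (h.trans _ _ _ h1 h2)
  up := by
    rintro s t k l h1 h2 h3
    cases h1 with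
    | bt =>
      rcases bI_bt.1 h3 with ⟨a, h4, h5⟩ | h4
      · exact BI.chain a l (h.upL _ _ _ (h2.mono hS) h4) (h.upR _ _ _ (h2.mono hS) h5)
      · exact BI.ext l (upA k l h2 h4)
    | bm a => exact bI_bm.2 (h.upL _ _ _ (h2.mono hS) (bI_bm.1 h3))
    | mt a => exact bI_mt.2 (h.upR _ _ _ (h2.mono hS) (bI_mt.1 h3))
    | mm a b h1 => exact bI_mm.2 (h.upI _ _ _ _ h1 (h2.mono hS) (bI_mm.1 h3))
  cm := by
    rintro s t k h1
    cases h1 with
    | bt => exact cmA k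
    | bm a => exact (h.cmL a k).imp bI_bm.2 bI_bm.2
    | mt a => exact (h.cmR a k).imp bI_mt.2 bI_mt.2
    | mm a b h1 => exact (h.cmI a b k h1).imp bI_mm.2 bI_mm.2
  tri := by
    rintro s r t k h1 h2 h3 h4
    cases h1 with
    | bt => cases h2
    | bm a =>
      cases h2 with
      | mt => exact BI.chain a k (bI_bm.1 h3) (bI_mt.1 h4)
      | mm _ b h2 => exact bI_bm.2 (h.triL _ _ _ h2 (bI_bm.1 h3) (bI_mm.1 h4))
    | mt a => cases h2
    | mm a b h1 =>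
      cases h2 with
      | mt => exact bI_mt.2 (h.triR _ _ _ h1 (bI_mm.1 h3) (bI_mt.1 h4))
      | mm _ c h2 => exact bI_mm.2 (h.triI _ _ _ _ h1 h2 (bI_mm.1 h3) (bI_mm.1 h4))
  jn := by
    rintro s t k l h1 h2
    cases h1 with
    | bt =>
      rcases bI_bt.1 h2 with ⟨a, h3, h4⟩ | h3
      · exact Or.inr (Or.inr ⟨.mid a, BLt.bm a, BLt.mt a, bI_bm.2 h3, bI_mt.2 h4⟩)
      · rcases jnA k l h3 with h4 | h4 | ⟨a, h4, h5⟩
        · exact Or.inl h4
        · exact Or.inr (Or.inl h4)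
        · exact Or.inr (Or.inr ⟨.mid a, BLt.bm a, BLt.mt a, bI_bm.2 h4, bI_mt.2 h5⟩)
    | bm a =>
      rcases h.jnL _ _ _ (bI_bm.1 h2) with h3 | h3 | ⟨r, h3, h4, h5⟩
      · exact Or.inl (bI_bm.2 h3)
      · exact Or.inr (Or.inl (bI_bm.2 h3))
      · exact Or.inr (Or.inr ⟨.mid r, BLt.bm r, BLt.mm _ _ h3, bI_bm.2 h4, bI_mm.2 h5⟩)
    | mt a =>
      rcases h.jnR _ _ _ (bI_mt.1 h2) with h3 | h3 | ⟨r, h3, h4, h5⟩
      · exact Or.inl (bI_mt.2 h3)
      · exact Or.inr (Or.inl (bI_mt.2 h3))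
      · exact Or.inr (Or.inr ⟨.mid r, BLt.mm _ _ h3, BLt.mt r, bI_mm.2 h4, bI_mt.2 h5⟩)
    | mm a b h1 =>
      rcases h.jnI _ _ _ _ h1 (bI_mm.1 h2) with h3 | h3 | ⟨r, h3, h4, h5, h6⟩
      · exact Or.inl (bI_mm.2 h3)
      · exact Or.inr (Or.inl (bI_mm.2 h3))
      · exact Or.inr (Or.inr ⟨.mid r, BLt.mm _ _ h3, BLt.mm _ _ h4, bI_mm.2 h5, bI_mm.2 h6⟩)
  orr := by
    rintro s t k h1 h2 h3
    cases h1 with
    | bt =>
      obtain ⟨a, h4, h5⟩ := orA k h2 h3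
      exact ⟨.mid a, BLt.bm a, BLt.mt a, bI_bm.2 h4, bI_mt.2 h5⟩
    | bm a =>
      obtain ⟨r, h4, h5, h6⟩ := h.orL _ _ (bI_bm.1 h2) (bI_bm.1 h3)
      exact ⟨.mid r, BLt.bm r, BLt.mm _ _ h4, bI_bm.2 h5, bI_mm.2 h6⟩
    | mt a =>
      obtain ⟨r, h4, h5, h6⟩ := h.orR _ _ (bI_mt.1 h2) (bI_mt.1 h3)
      exact ⟨.mid r, BLt.mm _ _ h4, BLt.mt r, bI_mm.2 h5, bI_mt.2 h6⟩
    | mm a b h1 =>
      obtain ⟨r, h4, h5, h6, h7⟩ := h.orI _ _ _ h1 (bI_mm.1 h2) (bI_mm.1 h3)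
      exact ⟨.mid r, BLt.mm _ _ h4, BLt.mm _ _ h5, bI_mm.2 h6, bI_mm.2 h7⟩

end Bounded

/-! ### The induction -/

section Step

variable [Finite K]

/-- `l` and `v` are separated by a pair of a finite labelled strict ordering such that `v` does not
belong to any label of a pair with the same upper entry. -/
def RF (S : Set K) (l v : K) : Prop :=
  ∃ (E : Type u) (_ : Finite E) (lt : E → E → Prop) (I : E → E → Set K) (z y : E),
    IsRep S lt I ∧ lt z y ∧ l ∈ I z y ∧ ∀ s, lt s y → v ∉ I s y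

/-- The pieces of the gluing construction. -/
def MG (S : Set K) (p m l : K) : Prop :=
  ∃ (M : Type u) (_ : Finite M) (lt : M → M → Prop) (I : M → M → Set K) (L R : M → Set K),
    MidRep S lt I L R ∧ (∀ a, m ∉ R a) ∧ (∀ a, perp p ∉ L a) ∧ ∃ a, l ∈ L a ∧ l ∈ R a

theorem RF.mono {S S' : Set K} (hS : S ⊆ S') {l l' v v' : K} (h : RF S l v) (hl : l ≤ l')
    (hv : v' ≤ v) : RF S' l' v' := by
  obtain ⟨E, hE, lt, I, z, y, h1, h2, h3, h4⟩ := h
  refine ⟨E, hE, lt, I, z, y, ?_, h2, h1.up _ _ _ _ h2 (leS_of_le hl) h3, ?_⟩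
  · exact ⟨h1.irrefl, h1.trans, fun s t k l h5 h6 => h1.up s t k l h5 (h6.mono hS), h1.cm, h1.tri,
      h1.jn, h1.orr⟩
  · intro s h5 h6
    exact h4 s h5 (h1.up _ _ _ _ h5 (leS_of_le hv) h6)

theorem mg_one (hLB : LB K) {S : Set K} {p m l w : K} (hw : LC w ⊥) (hwS : w ∈ S) (hwp : w ≤ p)
    (hwl : w ≤ l) (h : RF S l m) : MG S p m l := by
  obtain ⟨E, hE, lt, I, z, y, h1, h2, h3, h4⟩ := h
  refine ⟨_, inferInstance, _, _, _, _, mid_of_rep hLB hw hwS h1 y, ?_, ?_, ⟨z, h2⟩, hwl, h3⟩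
  · intro a
    exact h4 a.1 a.2
  · intro a h5
    exact atom_not_both hw hwp h5

theorem mg_two (hLB : LB K) {S : Set K} {p m l w : K} (hw : LC w ⊥) (hwS : w ∈ S)
    (hwp : w ≤ perp m) (hwl : w ≤ l) (h : RF S l (perp p)) : MG S p m l := by
  obtain ⟨E, hE, lt, I, z, y, h1, h2, h3, h4⟩ := h
  refine ⟨_, inferInstance, _, _, _, _, (mid_of_rep hLB hw hwS h1 y).dual, ?_, ?_,
    ⟨z, h2⟩, h3, hwl⟩
  · intro a h5
    exact atom_not_both hw h5 hwp
  · intro a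
    exact h4 a.1 a.2

theorem rf_prime (hLB : LB K) {w m : K} (hw : LC w ⊥) (hwm : ¬ w ≤ m) : RF (SS K 1) w m := by
  refine ⟨ULift.{u} Bool, inferInstance, fun a b => a.down = false ∧ b.down = true,
    fun _ _ => {k | w ≤ k}, ⟨false⟩, ⟨true⟩, ?_, ⟨rfl, rfl⟩, le_rfl, fun _ _ h => hwm h⟩
  refine ⟨?_, ?_, ?_, ?_, ?_, ?_, ?_⟩
  · rintro s ⟨h1, h2⟩
    rw [h1] at h2
    exact absurd h2 (by decide)
  · rintro s r t ⟨h1, h2⟩ ⟨h3, h4⟩
    exact ⟨h1, h4⟩
  · intro s t k l _ h1 h2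
    exact h1 w (atom_mem hLB hw) h2
  · intro s t k _
    exact atom_le_or hLB hw k
  · intro s r t k _ _ h1 _
    exact h1
  · intro s t k l _ h1
    rcases atom_prime hLB hw h1 with h3 | h3
    · exact Or.inl h3
    · exact Or.inr (Or.inl h3)
  · intro s t k _ h1 h2
    exact absurd h2 (fun h3 => atom_not_both hw h1 h3)

theorem rf_step (hLB : LB K) {n : ℕ} (hn : 1 ≤ n) {p m : K} (hp : p ∈ SS K (n + 1))
    (hm : Kap p m) (IH : ∀ l v, ¬ leS (SS K n) l v → RF (SS K n) l v) :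
    RF (SS K (n + 1)) p m := by
  have hmp := kap_perp hLB hm
  have hps : perp m ∈ SS K (n + 1) := sharp_closed hLB _ _ _ hp hm
  have hp0 : p ≠ ⊥ := by
    intro h
    exact hm.not_le (h ▸ bot_le)
  have hm0 : perp m ≠ ⊥ := by
    intro h
    exact hmp.not_le (h ▸ bot_le)
  obtain ⟨w, hw, hwp⟩ := exists_atom hp0
  obtain ⟨w', hw', hwm⟩ := exists_atom hm0
  have hwS : w ∈ SS K n := SS_mono hn (atom_mem hLB hw)
  have hwS' : w' ∈ SS K n := SS_mono hn (atom_mem hLB hw')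
  have hG : ∀ g : {l : K // (w ≤ l ∧ ¬ leS (SS K n) l m) ∨
      (w' ≤ l ∧ ¬ leS (SS K n) l (perp p))}, MG (SS K n) p m g.1 := by
    rintro ⟨l, h | h⟩
    · exact mg_one hLB hw hwS hwp h.1 (IH _ _ h.2)
    · exact mg_two hLB hw' hwS' hwm h.1 (IH _ _ h.2)
  choose M hfin lt I L R hmid hR hL a ha1 ha2 using hG
  have hmid2 := mid_sigma hmid
  have hTm : ¬ ∃ x : Σ g, M g, m ∈ L x.1 x.2 ∧ m ∈ R x.1 x.2 := by
    rintro ⟨x, h1, h2⟩
    exact hR _ _ h2
  have hTp : ¬ ∃ x : Σ g, M g, perp p ∈ L x.1 x.2 ∧ perp p ∈ R x.1 x.2 := by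
    rintro ⟨x, h1, h2⟩
    exact hL _ _ h1
  have hTup : ∀ k l : K, k ≤ l → (∃ x : Σ g, M g, k ∈ L x.1 x.2 ∧ k ∈ R x.1 x.2) →
      ∃ x : Σ g, M g, l ∈ L x.1 x.2 ∧ l ∈ R x.1 x.2 := by
    rintro k l h ⟨x, h1, h2⟩
    exact ⟨x, (hmid x.1).upL _ _ _ (leS_of_le h) h1, (hmid x.1).upR _ _ _ (leS_of_le h) h2⟩
  have hT1 : ∀ k : K, w ≤ k → (¬ ∃ x : Σ g, M g, k ∈ L x.1 x.2 ∧ k ∈ R x.1 x.2) →
      leS (SS K n) k m := by
    intro k h1 h2
    by_contra h3
    exact h2 ⟨⟨⟨k, Or.inl ⟨h1, h3⟩⟩, a _⟩, ha1 _, ha2 _⟩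
  have hT2 : ∀ k : K, w' ≤ k → (¬ ∃ x : Σ g, M g, k ∈ L x.1 x.2 ∧ k ∈ R x.1 x.2) →
      leS (SS K n) k (perp p) := by
    intro k h1 h2
    by_contra h3
    exact h2 ⟨⟨⟨k, Or.inr ⟨h1, h3⟩⟩, a _⟩, ha1 _, ha2 _⟩
  have hcore : ∀ k : K, w ≤ k → (¬ ∃ x : Σ g, M g, k ∈ L x.1 x.2 ∧ k ∈ R x.1 x.2) →
      (¬ ∃ x : Σ g, M g, perp k ∈ L x.1 x.2 ∧ perp k ∈ R x.1 x.2) →
      p ≤ k ∨ perp m ≤ perp k := by
    intro k h1 h2 h3
    have h4 := hT1 k h1 h2
    have h5 : w' ≤ perp k := by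
      rcases atom_le_or hLB hw' k with h6 | h6
      · exact absurd hwm (fun h7 => atom_not_both hw' (h4 w' hwS' h6) h7)
      · exact h6
    have h6 := leS_perp hLB n (hT2 _ h5 h3)
    rw [perp_perp, perp_perp] at h6
    by_cases h7 : p ≤ k
    · exact Or.inl h7
    · exact Or.inr (perp_le_perp _ _ (coverA hp hm (fun c hc h8 => h6 c hc h8.le) h7))
  refine ⟨Bd (Σ g, M g), finite_bd, BLt (SLt lt), _, .bot, .top,
    rep_of_mid (A := {k | p ≤ k ∨ perp m ≤ k}) (SS_succ n) hmid2 ?_ ?_ ?_ ?_, BLt.bt,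
    BI.ext _ (Or.inl le_rfl), ?_⟩
  · rintro k l h1 (h2 | h2)
    · exact Or.inl (h1 _ hp h2)
    · exact Or.inr (h1 _ hps h2)
  · intro k
    by_contra h
    rw [not_or, bI_bt, bI_bt, not_or, not_or] at h
    obtain ⟨⟨h1, h2⟩, ⟨h3, h4⟩⟩ := h
    rcases atom_le_or hLB hw k with h5 | h5
    · rcases hcore k h5 h1 h3 with h6 | h6
      · exact h2 (Or.inl h6)
      · exact h4 (Or.inr h6)
    · rcases hcore (perp k) h5 h3 (by rwa [perp_perp]) with h6 | h6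
      · exact h4 (Or.inl h6)
      · rw [perp_perp] at h6
        exact h2 (Or.inr h6)
  · intro k l h
    by_cases hT : ∃ x : Σ g, M g, k ⊔ l ∈ L x.1 x.2 ∧ k ⊔ l ∈ R x.1 x.2
    · exact Or.inr (Or.inr hT)
    rcases h with h | h
    · have h1 := hT1 _ (hwp.trans h) hT
      by_cases h2 : p ≤ k
      · exact Or.inl (BI.ext _ (Or.inl h2))
      by_cases h3 : p ≤ l
      · exact Or.inr (Or.inl (BI.ext _ (Or.inl h3)))
      refine absurd (hp.2 k l h h2 h3 m ?_) hm.not_le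
      rintro c hc (h4 | h4)
      · exact h1 c hc (h4.trans le_sup_left)
      · exact h1 c hc (h4.trans le_sup_right)
    · have h1 := hT2 _ (hwm.trans h) hT
      by_cases h2 : perp m ≤ k
      · exact Or.inl (BI.ext _ (Or.inr h2))
      by_cases h3 : perp m ≤ l
      · exact Or.inr (Or.inl (BI.ext _ (Or.inr h3)))
      refine absurd (hps.2 k l h h2 h3 (perp p) ?_) hmp.not_le
      rintro c hc (h4 | h4)
      · exact h1 c hc (h4.trans le_sup_left)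
      · exact h1 c hc (h4.trans le_sup_right)
  · intro k h1 h2
    by_contra hT
    rcases bI_bt.1 h1 with h3 | h3
    · exact hT h3
    rcases h3 with h3 | h3
    · have h4 : perp k ≤ perp p := perp_le_perp _ _ h3
      rcases bI_bt.1 h2 with h5 | h5
      · exact hTp (hTup _ _ h4 h5)
      rcases h5 with h5 | h5
      · exact atom_not_both hw (hwp.trans h3) (hwp.trans h5)
      · exact hmp.not_le (h5.trans h4)
    · have h4 : perp k ≤ m := perp_le_comm.1 h3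
      rcases bI_bt.1 h2 with h5 | h5
      · exact hTm (hTup _ _ h4 h5)
      rcases h5 with h5 | h5
      · exact hm.not_le (h5.trans h4)
      · exact atom_not_both hw' (hwm.trans h3) (hwm.trans h5)
  · intro s h1 h2
    cases h1 with
    | bt =>
      rcases bI_bt.1 h2 with h3 | h3
      · exact hTm h3
      rcases h3 with h3 | h3
      · exact hm.not_le h3
      · exact atom_not_both hw' (hwm.trans h3) hwm
    | mt x =>
      have h3 := (bI_mt (R := fun x : Σ g, M g => R x.1 x.2)).1 h2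
      exact hR _ _ h3

theorem rf_all (hLB : LB K) (n : ℕ) : ∀ l v : K, ¬ leS (SS K n) l v → RF (SS K n) l v := by
  induction n with
  | zero =>
    intro l v h
    exact absurd (fun q hq => absurd hq (Set.notMem_empty _)) h
  | succ n ih =>
    intro l v h
    by_cases h1 : leS (SS K n) l v
    · have h2 : ∃ p ∈ SS K (n + 1), p ≤ l ∧ ¬ p ≤ v := by
        by_contra h3
        apply h
        intro q hq h4
        by_contra h5
        exact h3 ⟨q, hq, h4, h5⟩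
      obtain ⟨p, hp, hpl, hpv⟩ := h2
      obtain ⟨m, hm⟩ := exists_kap hLB (SS_isJI hp)
      have h3 : v ≤ m := coverA hp hm (fun c hc hcp => h1 c hc (hcp.le.trans hpl)) hpv
      have h4 : RF (SS K (n + 1)) p m := by
        by_cases hat : LC p ⊥
        · exact (rf_prime hLB hat hm.not_le).mono (SS_mono (by omega)) le_rfl le_rfl
        · have hn : 1 ≤ n := by
            rcases Nat.eq_zero_or_pos n with h5 | h5
            · exfalso
              subst h5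
              apply hat
              have hp0 : p ≠ ⊥ := fun h => hm.not_le (h ▸ bot_le)
              obtain ⟨w, hw, hwp⟩ := exists_atom hp0
              have h6 : p ≤ w := by
                by_contra h7
                have h8 : p ≤ w ⊔ perp w := by
                  rw [sup_perp]
                  exact le_top
                have h9 : ¬ p ≤ perp w := by
                  intro h10
                  exact atom_not_both hw le_rfl (hwp.trans h10)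
                have h10 := hp.2 _ _ h8 h7 h9 ⊥
                  (fun c hc => absurd hc (Set.notMem_empty _))
                exact hp0 (le_bot_iff.1 h10)
              have h7 : w = p := le_antisymm hwp h6
              rwa [h7] at hw
            · exact h5
          exact rf_step hLB hn hp hm ih
      exact h4.mono (Set.Subset.refl _) hpl h3
    · exact (ih l v h1).mono (SS_succ n) le_rfl le_rfl

theorem rf_univ (hLB : LB K) {l v : K} (h : ¬ l ≤ v) : RF (Set.univ : Set K) l v := by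
  obtain ⟨q, h1, h2, h3⟩ := exists_min h
  obtain ⟨n, hn⟩ := hLB q ⟨_, h3⟩
  have h4 : ¬ leS (SS K n) l v := fun h5 => h2 (h5 q hn h1)
  exact (rf_all hLB n l v h4).mono (Set.subset_univ _) le_rfl le_rfl

end Step

end Pool.Agent.H398
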